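import Mathlib

set_option autoImplicit false

open Filter Topology Finset
open scoped Classical

namespace Pool.Agent.Lib.MP_cc0c1a_nt

/-- The circle `ℝ/ℤ`. -/
abbrev T := AddCircle (1 : ℝ)

/-! ### Basic facts on the circle -/

lemma coe_int (m : ℤ) : ((m : ℝ) : T) = 0 := by
  rw [AddCircle.coe_eq_zero_iff]
  exact ⟨m, by simp⟩

lemma exists_rep (x : T) : ∃ r : ℝ, (r : T) = x ∧ |r| = ‖x‖ ∧ |r| ≤ 1 / 2 := by
  obtain ⟨t, rfl⟩ := QuotientAddGroup.mk_surjective x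
  refine ⟨t - round t, ?_, ?_, abs_sub_round t⟩
  · have : ((t - round t : ℝ) : T) = (t : T) - ((round t : ℤ) : ℝ) := AddCircle.coe_sub _ _ _
    rw [this, coe_int, sub_zero]
  · change |t - round t| = ‖(t : T)‖
    rw [AddCircle.norm_eq]
    simp

lemma norm_coe_le (r : ℝ) : ‖(r : T)‖ ≤ |r| := by
  rw [AddCircle.norm_eq]
  simpa using round_le r 0

lemma nsmul_coe (k : ℕ) (r : ℝ) : k • (r : T) = ((k * r : ℝ) : T) := by
  rw [← AddCircle.coe_nsmul, nsmul_eq_mul]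

lemma norm_nsmul_le' (k : ℕ) (x : T) : ‖k • x‖ ≤ k * ‖x‖ := norm_nsmul_le

/-! ### Sequences -/

/-- Sequences `v` on the circle with `2 v (n+1) = 3 v n`. -/
def Seq (v : ℕ → T) : Prop := ∀ n, 2 • v (n + 1) = 3 • v n

/-- Position `l` is good: the points `4^l v n`, `E ≤ n ≤ U`, are `ε`-dense. -/
def Gd (ε : ℝ) (v : ℕ → T) (E U l : ℕ) : Prop :=
  ∀ τ : T, ∃ n, E ≤ n ∧ n ≤ U ∧ ‖4 ^ l • v n - τ‖ < ε

/-- There are times `f 0, ..., f j` in `[M - r, M + r]` such that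
`4^l v (f s) = 4^l v (f 0) + s / q` up to `δ`. -/
def Bj (q j : ℕ) (δ : ℝ) (v : ℕ → T) (M r l : ℕ) : Prop :=
  ∃ f : ℕ → ℕ, (∀ s ≤ j, M ≤ f s + r ∧ f s ≤ M + r) ∧
    ∀ s ≤ j, ‖4 ^ l • v (f s) - 4 ^ l • v (f 0) - s • ((1 / q : ℝ) : T)‖ ≤ δ

/-- Some `4^l v n`, `n ∈ [M - r, M + r]`, is `κ`-close to a `Q`-torsion point. -/
def Ct (Q : ℕ) (κ : ℝ) (v : ℕ → T) (M r l : ℕ) : Prop :=
  ∃ n, M ≤ n + r ∧ n ≤ M + r ∧ ∃ ζ : T, Q • ζ = 0 ∧ ‖4 ^ l • v n - ζ‖ ≤ κ

/-- The escape condition: shortly after time `E` the sequence `4^l v` is not extremely close to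
torsion points of small order (compared with `(2/3)^(M-E)`). -/
def Esc (C : ℕ) (v : ℕ → T) (E M l : ℕ) : Prop :=
  E + 2 * C ≤ M ∧ ∀ Q c : ℕ, 1 ≤ Q → Q ≤ C → c ≤ C →
    C * (2 / 3 : ℝ) ^ (M - E - 2 * C) < ‖Q • (4 ^ l • v (E + c))‖

/-! ### The mechanism -/

/-- splitting `l = l % 3^m + 3^m (l / 3^m)` -/
theorem mech_count_step {m h : ℕ} (P Q : ℕ → Prop)
    (hP : ∀ l t, P (l + 3 ^ m * t) ↔ P l)
    (hQ : ∀ l, ∃ t < 3 ^ h, Q (l + 3 ^ m * t)) :
    ((range (3 ^ (m + h))).filter (fun l => P l ∧ ¬ Q l)).card ≤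
      (3 ^ h - 1) * ((range (3 ^ m)).filter P).card := by
  have h3m : 0 < 3 ^ m := by positivity
  have key : ((range (3 ^ (m + h))).filter (fun l => P l ∧ ¬ Q l)).card ≤
      (((range (3 ^ m)).filter P).sigma (fun l0 => (range (3 ^ h)).filter
        (fun t => ¬ Q (l0 + 3 ^ m * t)))).card := by
    apply Finset.card_le_card_of_injOn (fun l => ⟨l % 3 ^ m, l / 3 ^ m⟩)
    · intro l hl
      simp only [coe_filter, mem_range, Set.mem_ofPred_eq] at hl
      obtain ⟨hl1, hl2, hl3⟩ := hl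
      have hdiv : l % 3 ^ m + 3 ^ m * (l / 3 ^ m) = l := Nat.mod_add_div l (3 ^ m)
      simp only [coe_sigma, coe_filter, mem_range, Set.mem_sigma_iff, Set.mem_ofPred_eq]
      refine ⟨⟨Nat.mod_lt _ h3m, ?_⟩, ?_, ?_⟩
      · rw [← hP (l % 3 ^ m) (l / 3 ^ m), hdiv]; exact hl2
      · rw [Nat.div_lt_iff_lt_mul h3m, ← pow_add, add_comm h m]; exact hl1
      · rw [hdiv]; exact hl3
    · intro l _ l' _ hll
      simp only [Sigma.mk.injEq, heq_eq_eq] at hll
      rw [← Nat.mod_add_div l (3 ^ m), ← Nat.mod_add_div l' (3 ^ m), hll.1, hll.2]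
  refine key.trans ?_
  rw [card_sigma]
  have : ∀ l0 ∈ (range (3 ^ m)).filter P,
      ((range (3 ^ h)).filter (fun t => ¬ Q (l0 + 3 ^ m * t))).card ≤ 3 ^ h - 1 := by
    intro l0 _
    obtain ⟨t, ht, hQt⟩ := hQ l0
    have hsub : (range (3 ^ h)).filter (fun t => ¬ Q (l0 + 3 ^ m * t)) ⊆
        (range (3 ^ h)).erase t := by
      intro t' ht'
      simp only [mem_filter, mem_range] at ht'
      rw [mem_erase, mem_range]
      refine ⟨?_, ht'.1⟩
      rintro rfl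
      exact ht'.2 hQt
    calc _ ≤ ((range (3 ^ h)).erase t).card := card_le_card hsub
      _ = 3 ^ h - 1 := by rw [card_erase_of_mem (mem_range.mpr ht), card_range]
  calc _ ≤ ∑ l0 ∈ (range (3 ^ m)).filter P, (3 ^ h - 1) := sum_le_sum this
    _ = _ := by rw [sum_const, smul_eq_mul, mul_comm]

theorem mech_count_ext {m r : ℕ} (P : ℕ → Prop)
    (hP : ∀ l t, P (l + 3 ^ m * t) ↔ P l) :
    ((range (3 ^ (m + r))).filter P).card ≤ 3 ^ r * ((range (3 ^ m)).filter P).card := by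
  have h3m : 0 < 3 ^ m := by positivity
  have key : ((range (3 ^ (m + r))).filter P).card ≤
      (((range (3 ^ m)).filter P) ×ˢ (range (3 ^ r))).card := by
    apply Finset.card_le_card_of_injOn (fun l => (l % 3 ^ m, l / 3 ^ m))
    · intro l hl
      simp only [coe_filter, mem_range, Set.mem_ofPred_eq] at hl
      obtain ⟨hl1, hl2⟩ := hl
      have hdiv : l % 3 ^ m + 3 ^ m * (l / 3 ^ m) = l := Nat.mod_add_div l (3 ^ m)
      simp only [coe_product, coe_filter, coe_range, mem_range, Set.mem_prod, Set.mem_ofPred_eq,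
        Set.mem_Iio]
      refine ⟨⟨Nat.mod_lt _ h3m, ?_⟩, ?_⟩
      · rw [← hP (l % 3 ^ m) (l / 3 ^ m), hdiv]; exact hl2
      · rw [Nat.div_lt_iff_lt_mul h3m, ← pow_add, add_comm r m]; exact hl1
    · intro l _ l' _ hll
      simp only [Prod.mk.injEq] at hll
      rw [← Nat.mod_add_div l (3 ^ m), ← Nat.mod_add_div l' (3 ^ m), hll.1, hll.2]
  refine key.trans ?_
  rw [card_product, card_range, mul_comm]

/-- `4^(a 3^m t) = 1 + 3^(m+1+v) w t mod 3^(2(m+1+v))`, `v = v_3(a)`. -/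
theorem mech_lte {a v : ℕ} (ha : 0 < a) (hv : padicValNat 3 a = v) (m : ℕ) :
    ∃ w : ℕ, ¬ 3 ∣ w ∧ ∀ t : ℕ, ∃ r : ℕ, 4 ^ (a * (3 ^ m * t)) =
      1 + 3 ^ (m + 1 + v) * (w * t) + 3 ^ (m + 1 + v) * 3 ^ (m + 1 + v) * r := by
  have : Fact (Nat.Prime 3) := ⟨Nat.prime_three⟩
  have hlte : padicValNat 3 (4 ^ (a * 3 ^ m) - 1 ^ (a * 3 ^ m)) = m + 1 + v := by
    rw [padicValNat.pow_sub_pow (p := 3) (x := 4) (y := 1) (by decide) (by norm_num) (by norm_num)
      (by norm_num) (by positivity)]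
    rw [padicValNat.mul (by omega) (by positivity), hv, padicValNat.prime_pow]
    norm_num
    omega
  rw [one_pow] at hlte
  have hpos : 1 < 4 ^ (a * 3 ^ m) := Nat.one_lt_pow (by positivity) (by norm_num)
  obtain ⟨w, hw⟩ : 3 ^ (m + 1 + v) ∣ 4 ^ (a * 3 ^ m) - 1 := by
    rw [← hlte]; exact pow_padicValNat_dvd
  have hw3 : ¬ 3 ∣ w := by
    rintro ⟨w', rfl⟩
    have h1 : 3 ^ (m + 1 + v + 1) ∣ 4 ^ (a * 3 ^ m) - 1 := by
      rw [hw]; exact ⟨w', by ring⟩
    rw [padicValNat_dvd_iff_le (by omega), hlte] at h1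
    omega
  have h4 : 4 ^ (a * 3 ^ m) = 1 + 3 ^ (m + 1 + v) * w := by omega
  refine ⟨w, hw3, ?_⟩
  set N := 3 ^ (m + 1 + v) with hN
  intro t
  induction t with
  | zero => exact ⟨0, by simp⟩
  | succ t ih =>
    obtain ⟨r, hr⟩ := ih
    refine ⟨r + w * (w * t) + N * r * w, ?_⟩
    have : a * (3 ^ m * (t + 1)) = a * (3 ^ m * t) + a * 3 ^ m := by ring
    rw [this, pow_add, hr, h4]
    ring

/-- top digits surjectivity -/
theorem mech_top {a m h s v : ℕ} (ha : 0 < a) (hv : padicValNat 3 a = v)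
    (hs : s = m + 1 + v + h) (hm : h ≤ m + 1 + v) {u : ℕ} (hu : ¬ 3 ∣ u) (c : ℕ) (hc : c < 3 ^ h) :
    ∃ t < 3 ^ h, ((4 ^ (a * (3 ^ m * t)) * u) % 3 ^ s) / 3 ^ (m + 1 + v) = c := by
  obtain ⟨w, hw3, hbin⟩ := mech_lte ha hv m
  set N := 3 ^ (m + 1 + v) with hN
  have hNpos : 0 < N := by positivity
  have hcop : Nat.Coprime (w * u) (3 ^ h) := by
    apply Nat.Coprime.pow_right
    apply Nat.Coprime.symm
    rw [Nat.Prime.coprime_iff_not_dvd Nat.prime_three]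
    intro hd
    rcases (Nat.Prime.dvd_mul Nat.prime_three).mp hd with h1 | h1
    · exact hw3 h1
    · exact hu h1
  set A := u / N with hA
  set B := u % N with hB
  have hu' : u = B + N * A := (Nat.mod_add_div u N).symm
  obtain ⟨t, htlt, ht⟩ : ∃ t < 3 ^ h, (A + w * u * t) % 3 ^ h = c := by
    have : NeZero (3 ^ h) := ⟨by positivity⟩
    refine ⟨(((c : ZMod (3 ^ h)) - A) * ((w * u : ℕ) : ZMod (3 ^ h))⁻¹).val, ZMod.val_lt _, ?_⟩
    have h1 : ((A + w * u * (((c : ZMod (3 ^ h)) - A) * ((w * u : ℕ) : ZMod (3 ^ h))⁻¹).val : ℕ) :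
        ZMod (3 ^ h)) = (c : ZMod (3 ^ h)) := by
      rw [Nat.cast_add, Nat.cast_mul, ZMod.natCast_zmod_val]
      rw [mul_left_comm, ZMod.coe_mul_inv_eq_one _ hcop]
      ring
    rw [ZMod.natCast_eq_natCast_iff', Nat.mod_eq_of_lt hc] at h1
    exact h1
  refine ⟨t, htlt, ?_⟩
  obtain ⟨r, hr⟩ := hbin t
  have hsN : (3:ℕ) ^ s = N * 3 ^ h := by rw [hs, hN, pow_add]
  have hNN : 3 ^ h ∣ N := by rw [hN]; exact pow_dvd_pow 3 hm
  obtain ⟨M, hM⟩ := hNN
  rw [hr, hsN]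
  have e1 : (1 + N * (w * t) + N * N * r) * u = u + N * (w * u * t + N * r * u) := by ring
  have e2 : B + N * (A + w * u * t + N * r * u) = (B + N * A) + N * (w * u * t + N * r * u) := by
    ring
  have e3 : (1 + N * (w * t) + N * N * r) * u = B + N * (A + w * u * t + N * r * u) := by
    rw [e1, e2, ← hu']
  rw [e3, Nat.mod_mul_right_div_self, Nat.add_mul_div_left _ _ hNpos,
    Nat.div_eq_of_lt (Nat.mod_lt _ hNpos), zero_add]
  have e4 : A + w * u * t + N * r * u = A + w * u * t + 3 ^ h * (M * r * u) := by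
    rw [hM]; ring
  rw [e4, Nat.add_mul_mod_self_left, ht]

/-- periodicity -/
theorem mech_per {a s v : ℕ} (ha : 0 < a) (hv : padicValNat 3 a = v) {m : ℕ} (hm : s ≤ m + 1 + v) (u l t : ℕ) :
    (4 ^ (a * (l + 3 ^ m * t)) * u) % 3 ^ s = (4 ^ (a * l) * u) % 3 ^ s := by
  obtain ⟨w, -, hbin⟩ := mech_lte ha hv m
  obtain ⟨r, hr⟩ := hbin t
  have h3 : (3:ℕ) ^ (m + 1 + v) = 3 ^ s * 3 ^ (m + 1 + v - s) := by
    rw [← pow_add]; congr 1; omega
  have hr' : 4 ^ (a * (3 ^ m * t)) = 1 + 3 ^ (m + 1 + v) * (w * t + 3 ^ (m + 1 + v) * r) := by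
    rw [hr]; ring
  generalize w * t + 3 ^ (m + 1 + v) * r = Y at hr'
  have h1 : 4 ^ (a * (l + 3 ^ m * t)) * u = 4 ^ (a * l) * u + 3 ^ s *
      (3 ^ (m + 1 + v - s) * Y * 4 ^ (a * l) * u) := by
    rw [mul_add, pow_add, hr', h3]
    ring
  rw [h1, Nat.add_mul_mod_self_left]

/-- the survivor count -/
theorem mech_survive {a h v K s₀ W : ℕ} (ha : 0 < a) (hK : 0 < K) (hv : padicValNat 3 a = v)
    (hW : W = 2 * h + 1 + v) (u : ℕ → ℕ) (hu : ∀ s, ¬ 3 ∣ u s) (c : ℕ) (hc : c < 3 ^ h) (j : ℕ) :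
    ∀ M, s₀ + K * (W * j) ≤ M →
    (((range (3 ^ M)).filter (fun l => ∀ i, 1 ≤ i → i ≤ j →
      ((4 ^ (a * l) * u (s₀ + K * (W * i))) % 3 ^ (s₀ + K * (W * i))) /
        3 ^ (s₀ + K * (W * i) - h) ≠ c)).card : ℝ) ≤ 3 ^ M * (1 - 1 / 3 ^ h) ^ j := by
  have hq : (0:ℝ) ≤ 1 - 1 / 3 ^ h := by
    have : (1:ℝ) / 3 ^ h ≤ 1 := by
      rw [div_le_one (by positivity)]
      exact one_le_pow₀ (by norm_num)
    linarith
  induction j with
  | zero =>
    intro M _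
    rw [pow_zero, mul_one]
    calc _ ≤ ((range (3 ^ M)).card : ℝ) := by exact_mod_cast card_filter_le _ _
      _ = _ := by simp
  | succ j ih =>
    intro M hM
    set s := s₀ + K * (W * (j + 1)) with hs
    have hKW : W ≤ K * W := Nat.le_mul_of_pos_left W hK
    have hs' : s = s₀ + K * (W * j) + K * W := by rw [hs]; ring
    set m := s - (1 + v + h) with hm
    have hsm : s = m + 1 + v + h := by omega
    have hms : s₀ + K * (W * j) ≤ m := by omega
    obtain ⟨P, hP⟩ : ∃ P : ℕ → Prop, ∀ l, P l ↔ ∀ i, 1 ≤ i → i ≤ j →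
      ((4 ^ (a * l) * u (s₀ + K * (W * i))) % 3 ^ (s₀ + K * (W * i))) /
        3 ^ (s₀ + K * (W * i) - h) ≠ c := ⟨_, fun _ => Iff.rfl⟩
    obtain ⟨Q, hQ⟩ : ∃ Q : ℕ → Prop, ∀ l, Q l ↔ ((4 ^ (a * l) * u s) % 3 ^ s) / 3 ^ (s - h) = c :=
      ⟨_, fun _ => Iff.rfl⟩
    have hPQ : ∀ l, (∀ i, 1 ≤ i → i ≤ j + 1 →
      ((4 ^ (a * l) * u (s₀ + K * (W * i))) % 3 ^ (s₀ + K * (W * i))) /
        3 ^ (s₀ + K * (W * i) - h) ≠ c) ↔ (P l ∧ ¬ Q l) := by
      intro l
      rw [hP, hQ]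
      constructor
      · intro hl
        exact ⟨fun i h1 h2 => hl i h1 (by omega), hl (j + 1) (by omega) le_rfl⟩
      · rintro ⟨hl1, hl2⟩ i h1 h2
        rcases Nat.lt_or_ge i (j + 1) with h3 | h3
        · exact hl1 i h1 (by omega)
        · obtain rfl : i = j + 1 := by omega
          exact hl2
    have hPper : ∀ l t, P (l + 3 ^ m * t) ↔ P l := by
      intro l t
      have : ∀ i, i ≤ j → ((4 ^ (a * (l + 3 ^ m * t)) * u (s₀ + K * (W * i))) %
          3 ^ (s₀ + K * (W * i))) = ((4 ^ (a * l) * u (s₀ + K * (W * i))) %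
          3 ^ (s₀ + K * (W * i))) := by
        intro i hi
        apply mech_per ha hv
        have : K * (W * i) ≤ K * (W * j) := by gcongr
        omega
      rw [hP, hP]
      constructor
      · intro hl i h1 h2
        rw [← this i h2]; exact hl i h1 h2
      · intro hl i h1 h2
        rw [this i h2]; exact hl i h1 h2
    have hQex : ∀ l, ∃ t < 3 ^ h, Q (l + 3 ^ m * t) := by
      intro l
      have hul : ¬ 3 ∣ (4 ^ (a * l) * u s) := by
        intro hd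
        rcases (Nat.Prime.dvd_mul Nat.prime_three).mp hd with h1 | h1
        · have := Nat.Prime.dvd_of_dvd_pow Nat.prime_three h1
          omega
        · exact hu s h1
      obtain ⟨t, ht, hQt⟩ := mech_top ha hv hsm (by omega) hul c hc
      refine ⟨t, ht, ?_⟩
      rw [hQ]
      rw [show 4 ^ (a * (l + 3 ^ m * t)) * u s = 4 ^ (a * (3 ^ m * t)) * (4 ^ (a * l) * u s) by
        rw [mul_add, pow_add]; ring, show s - h = m + 1 + v by omega]
      exact hQt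
    have h1 := mech_count_step P Q hPper hQex
    have h2 := ih m hms
    have h2' : (((range (3 ^ m)).filter P).card : ℝ) ≤ 3 ^ m * (1 - 1 / 3 ^ h) ^ j := by
      convert h2 using 4
      exact hP _
    -- extension to M
    obtain ⟨r, hr⟩ := Nat.exists_eq_add_of_le (show m + h ≤ M by omega)
    have hper' : ∀ l t, (P (l + 3 ^ (m + h) * t) ∧ ¬ Q (l + 3 ^ (m + h) * t)) ↔ (P l ∧ ¬ Q l) := by
      intro l t
      have e1 : l + 3 ^ (m + h) * t = l + 3 ^ m * (3 ^ h * t) := by rw [pow_add]; ring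
      have e2 : Q (l + 3 ^ (m + h) * t) ↔ Q l := by
        have e3 := mech_per (s := s) ha hv (show s ≤ (m + h) + 1 + v by omega) (u s) l t
        rw [hQ, hQ]
        rw [e3]
      rw [e2, e1, hPper]
    have h3 := mech_count_ext (r := r) (fun l => P l ∧ ¬ Q l) hper'
    rw [← hr] at h3
    have h3' : ((range (3 ^ M)).filter (fun l => P l ∧ ¬ Q l)).card ≤
        3 ^ r * ((range (3 ^ (m + h))).filter (fun l => P l ∧ ¬ Q l)).card := by
      convert h3
    simp only [hPQ]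
    have h4 : (((range (3 ^ M)).filter (fun l => P l ∧ ¬ Q l)).card : ℝ) ≤
        3 ^ r * ((3 ^ h - 1) * (3 ^ m * (1 - 1 / 3 ^ h) ^ j)) := by
      calc (((range (3 ^ M)).filter (fun l => P l ∧ ¬ Q l)).card : ℝ) 
          ≤ ((3 ^ r * ((3 ^ h - 1) * ((range (3 ^ m)).filter P).card) : ℕ) : ℝ) := by
            exact Nat.cast_le.mpr (h3'.trans (Nat.mul_le_mul_left (3 ^ r) h1))
        _ = 3 ^ r * ((3 ^ h - 1) * (((range (3 ^ m)).filter P).card : ℝ)) := by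
            rw [Nat.cast_mul, Nat.cast_mul, Nat.cast_sub (Nat.one_le_pow _ _ (by norm_num))]
            push_cast
            ring
        _ ≤ _ := by
            have : (1:ℝ) ≤ 3 ^ h := one_le_pow₀ (by norm_num)
            have : (0:ℝ) ≤ 3 ^ h - 1 := by linarith
            gcongr
    refine h4.trans (le_of_eq ?_)
    have h3h : (3:ℝ) ^ h ≠ 0 := by positivity
    rw [hr, pow_succ, pow_add, pow_add]
    field_simp

lemma mech_coe_int (m : ℤ) : ((m : ℝ) : T) = 0 := by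
  rw [AddCircle.coe_eq_zero_iff]
  exact ⟨m, by simp⟩

lemma mech_norm_coe_le (r : ℝ) : ‖(r : T)‖ ≤ |r| := by
  rw [AddCircle.norm_eq]
  simpa using round_le r 0

/-- T1. The 3-adic mechanism for one target point. -/
lemma mech_one (a K : ℕ) (ha : 0 < a) (hK : 0 < K) {ε η : ℝ} (hε : 0 < ε) (hη : 0 < η) :
    ∃ S L : ℕ, 0 < L ∧ ∀ β : ℤ, ¬ (3 : ℤ) ∣ β → ∀ s₀ < K, ∀ τ : T,
      (((range L).filter (fun l => ∀ i, 1 ≤ i → i ≤ S →
        ε ≤ ‖(((4 : ℝ) ^ (a * l) * 2 ^ (s₀ + K * i) * β / 3 ^ (s₀ + K * i) : ℝ) : T) - τ‖)).card : ℝ)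
        ≤ η * L := by
  obtain ⟨h, hh⟩ := exists_pow_lt_of_lt_one hε (show (1/3:ℝ) < 1 by norm_num)
  rw [one_div, inv_pow, ← one_div] at hh
  set v := padicValNat 3 a with hv
  set W := 2 * h + 1 + v with hW
  have h3h : (1:ℝ) ≤ 3 ^ h := one_le_pow₀ (by norm_num)
  have hq0 : (0:ℝ) < 1 / 3 ^ h := by positivity
  obtain ⟨S', hS'⟩ := exists_pow_lt_of_lt_one hη (show (1 - 1 / 3 ^ h:ℝ) < 1 by linarith)
  refine ⟨W * S', 3 ^ (K + K * (W * S')), by positivity, ?_⟩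
  intro β hβ s₀ hs₀ τ
  -- representative of τ
  obtain ⟨x, hx0, hx1, hxτ⟩ : ∃ x : ℝ, 0 ≤ x ∧ x < 1 ∧ (x : T) = τ := by
    obtain ⟨t, rfl⟩ := QuotientAddGroup.mk_surjective τ
    refine ⟨Int.fract t, Int.fract_nonneg t, Int.fract_lt_one t, ?_⟩
    have : ((Int.fract t : ℝ) : T) = (t : T) - ((⌊t⌋ : ℤ) : ℝ) := by
      rw [← AddCircle.coe_sub]; rfl
    rw [this, mech_coe_int, sub_zero]
  set c := ⌊(3:ℝ) ^ h * x⌋₊ with hc
  have hc1 : (c : ℝ) ≤ 3 ^ h * x := Nat.floor_le (by positivity)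
  have hc2 : (3:ℝ) ^ h * x < c + 1 := Nat.lt_floor_add_one _
  have hc3 : c < 3 ^ h := by
    have : (c : ℝ) < 3 ^ h := by
      calc (c:ℝ) ≤ 3 ^ h * x := hc1
        _ < 3 ^ h * 1 := by gcongr
        _ = _ := mul_one _
    exact_mod_cast this
  set u : ℕ → ℕ := fun s => ((2 ^ s * β) % 3 ^ (s + 1)).toNat with hu
  have hu1 : ∀ s, ((u s : ℕ) : ℤ) = (2 ^ s * β) % 3 ^ (s + 1) := by
    intro s
    rw [hu]
    exact Int.toNat_of_nonneg (Int.emod_nonneg _ (by positivity))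
  have hu2 : ∀ s, ∃ k : ℤ, 2 ^ s * β = (u s : ℤ) + 3 ^ (s + 1) * k := by
    intro s
    refine ⟨(2 ^ s * β) / 3 ^ (s + 1), ?_⟩
    rw [hu1]
    exact (Int.emod_add_mul_ediv _ _).symm
  have hu3 : ∀ s, ¬ 3 ∣ u s := by
    intro s hd
    obtain ⟨k, hk⟩ := hu2 s
    have h1 : (3:ℤ) ∣ 2 ^ s * β := by
      rw [hk]
      refine dvd_add (by exact_mod_cast hd) (Dvd.dvd.mul_right ?_ _)
      exact dvd_pow_self 3 (by omega)
    rcases Int.prime_three.dvd_or_dvd h1 with h2 | h2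
    · have := Int.prime_three.dvd_of_dvd_pow h2
      omega
    · exact hβ h2
  have hle : s₀ + K * (W * S') ≤ K + K * (W * S') := by omega
  have hmain := mech_survive (s₀ := s₀) ha hK hv.symm hW u hu3 c hc3 S' _ hle
  have hcard : (((range (3 ^ (K + K * (W * S')))).filter (fun l => ∀ i, 1 ≤ i → i ≤ W * S' →
        ε ≤ ‖(((4 : ℝ) ^ (a * l) * 2 ^ (s₀ + K * i) * β / 3 ^ (s₀ + K * i) : ℝ) : T) - τ‖)).card) ≤
      ((range (3 ^ (K + K * (W * S')))).filter (fun l => ∀ i, 1 ≤ i → i ≤ S' →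
      ((4 ^ (a * l) * u (s₀ + K * (W * i))) % 3 ^ (s₀ + K * (W * i))) /
        3 ^ (s₀ + K * (W * i) - h) ≠ c)).card := by
    apply card_le_card
    intro l hl
    simp only [Finset.mem_filter] at hl ⊢
    refine ⟨hl.1, ?_⟩
    intro i h1 h2 hdig
    have hi := hl.2 (W * i) (Nat.one_le_iff_ne_zero.mpr (by positivity)) (by gcongr)
    set s := s₀ + K * (W * i) with hs
    have hsh : h ≤ s := by
      have h5 : W ≤ K * (W * i) := by
        calc W = 1 * (W * 1) := by ring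
          _ ≤ K * (W * i) := by gcongr; omega
      omega
    set r := (4 ^ (a * l) * u s) % 3 ^ s with hr
    obtain ⟨k, hk⟩ := hu2 s
    have hrr : (4 ^ (a * l) * u s) = r + 3 ^ s * ((4 ^ (a * l) * u s) / 3 ^ s) :=
      (Nat.mod_add_div _ _).symm
    set e := (4 ^ (a * l) * u s) / 3 ^ s with he
    have hpt : (((4 : ℝ) ^ (a * l) * 2 ^ s * β / 3 ^ s : ℝ) : T) = (((r : ℝ) / 3 ^ s : ℝ) : T) := by
      have e1 : ((4 : ℝ) ^ (a * l) * 2 ^ s * β / 3 ^ s : ℝ) =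
          (r : ℝ) / 3 ^ s + (((e : ℤ) + 4 ^ (a * l) * (3 * k) : ℤ) : ℝ) := by
        have e2 : (2:ℝ) ^ s * β = (u s : ℝ) + 3 ^ (s + 1) * k := by exact_mod_cast hk
        have e3 : (4:ℝ) ^ (a * l) * (u s : ℝ) = r + 3 ^ s * e := by exact_mod_cast hrr
        rw [mul_assoc, e2, mul_add, e3]
        push_cast
        field_simp
        ring
      rw [e1, AddCircle.coe_add, mech_coe_int, add_zero]
    have hlo : c * 3 ^ (s - h) ≤ r := by
      rw [← hdig]; exact Nat.div_mul_le_self _ _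
    have hhi : r < (c + 1) * 3 ^ (s - h) := by
      rw [← hdig]; exact Nat.lt_mul_of_div_lt (Nat.lt_succ_self _) (by positivity)
    have h3s : (3:ℝ) ^ s = 3 ^ h * 3 ^ (s - h) := by
      rw [← pow_add]; congr 1; omega
    have hlo' : (c:ℝ) * 3 ^ (s - h) ≤ r := by exact_mod_cast hlo
    have hhi' : (r:ℝ) < (c + 1) * 3 ^ (s - h) := by exact_mod_cast hhi
    have hp1 : (0:ℝ) < 3 ^ (s - h) := by positivity
    have hclose : |(r : ℝ) / 3 ^ s - x| ≤ 1 / 3 ^ h := by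
      have h4 : (r : ℝ) / 3 ^ s = (r / 3 ^ (s - h)) / 3 ^ h := by
        rw [h3s, div_div, mul_comm]
      have h5 : (c : ℝ) ≤ r / 3 ^ (s - h) := by
        rw [le_div_iff₀ hp1]; exact hlo'
      have h6 : r / 3 ^ (s - h) < (c : ℝ) + 1 := by
        rw [div_lt_iff₀ hp1]; exact hhi'
      have h7 : (r : ℝ) / 3 ^ s - x = (r / 3 ^ (s - h) - 3 ^ h * x) / 3 ^ h := by
        rw [h4]; field_simp
      rw [h7, abs_div, abs_of_pos (show (0:ℝ) < 3 ^ h by positivity)]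
      gcongr
      rw [abs_le]
      constructor <;> linarith
    rw [hpt, ← hxτ, ← AddCircle.coe_sub] at hi
    have := (hi.trans (mech_norm_coe_le _)).trans hclose
    linarith
  calc _ ≤ _ := Nat.cast_le.mpr hcard
    _ ≤ _ := hmain
    _ ≤ _ := by
      rw [mul_comm]
      push_cast
      gcongr

/-- a finite net on the circle -/
private lemma T2_net {m : ℕ} (hm : 0 < m) (τ : T) :
    ∃ i₀ < m, ‖τ - (((i₀ : ℝ) / m : ℝ) : T)‖ ≤ 1 / m := by
  obtain ⟨r, hr, -, -⟩ := exists_rep τ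
  have hm' : (0 : ℝ) < m := by exact_mod_cast hm
  have hx0 : 0 ≤ Int.fract r := Int.fract_nonneg r
  have hx1 : Int.fract r < 1 := Int.fract_lt_one r
  have hτ : ((Int.fract r : ℝ) : T) = τ := by
    rw [← hr, Int.fract]
    have : ((r - (⌊r⌋ : ℤ) : ℝ) : T) = (r : T) - ((⌊r⌋ : ℤ) : ℝ) := AddCircle.coe_sub _ _ _
    rw [this, coe_int, sub_zero]
  refine ⟨⌊m * Int.fract r⌋₊, ?_, ?_⟩
  · rw [Nat.floor_lt (by positivity)]
    nlinarith
  · have h1 : (⌊m * Int.fract r⌋₊ : ℝ) ≤ m * Int.fract r := Nat.floor_le (by positivity)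
    have h2 : m * Int.fract r < ⌊m * Int.fract r⌋₊ + 1 := Nat.lt_floor_add_one _
    have h3 : τ - (((⌊m * Int.fract r⌋₊ : ℝ) / m : ℝ) : T) =
        ((Int.fract r - (⌊m * Int.fract r⌋₊ : ℝ) / m : ℝ) : T) := by
      rw [← hτ]
      exact (AddCircle.coe_sub _ _ _).symm
    rw [h3]
    refine (norm_coe_le _).trans ?_
    rw [abs_le]
    constructor
    · have : (⌊m * Int.fract r⌋₊ : ℝ) / m ≤ Int.fract r := by
        rw [div_le_iff₀ hm']; linarith
      have : 0 ≤ 1 / (m : ℝ) := by positivity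
      linarith
    · have : Int.fract r ≤ (⌊m * Int.fract r⌋₊ : ℝ) / m + 1 / m := by
        rw [← add_div, le_div_iff₀ hm']; linarith
      linarith

private lemma T2_mem_filter (p : ℕ → Prop) (inst : DecidablePred p) (s : Finset ℕ) (a : ℕ) :
    a ∈ @Finset.filter _ p inst s ↔ a ∈ s ∧ p a := Finset.mem_filter

/-- T2. The 3-adic mechanism, all target points and all multiples of `L`. -/
lemma mech (a K : ℕ) (ha : 0 < a) (hK : 0 < K) {ε η : ℝ} (hε : 0 < ε) (hη : 0 < η) :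
    ∃ S L : ℕ, 0 < L ∧ ∀ β : ℤ, ¬ (3 : ℤ) ∣ β → ∀ s₀ < K, ∀ M : ℕ,
      (((range (M * L)).filter (fun l => ∃ τ : T, ∀ i, 1 ≤ i → i ≤ S →
        ε ≤ ‖(((4 : ℝ) ^ (a * l) * 2 ^ (s₀ + K * i) * β / 3 ^ (s₀ + K * i) : ℝ) : T) - τ‖)).card : ℝ)
        ≤ η * (M * L) := by
  obtain ⟨m, hm⟩ := exists_nat_gt (2 / ε)
  have hm' : (0 : ℝ) < m := lt_trans (by positivity) hm
  have hm0 : 0 < m := by exact_mod_cast hm'
  have hmε : 1 / (m : ℝ) ≤ ε / 2 := by
    rw [div_le_iff₀ hm']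
    rw [div_lt_iff₀ hε] at hm
    linarith
  obtain ⟨S, L, hL, hone⟩ := mech_one a K ha hK (half_pos hε) (div_pos hη hm')
  refine ⟨S, L, hL, ?_⟩
  -- one block
  have hblock : ∀ β : ℤ, ¬ (3 : ℤ) ∣ β → ∀ s₀ < K,
      (((range L).filter (fun l => ∃ τ : T, ∀ i, 1 ≤ i → i ≤ S →
        ε ≤ ‖(((4 : ℝ) ^ (a * l) * 2 ^ (s₀ + K * i) * β / 3 ^ (s₀ + K * i) : ℝ) : T) - τ‖)).card : ℝ)
        ≤ η * L := by
    intro β hβ s₀ hs₀
    have hsub : (range L).filter (fun l => ∃ τ : T, ∀ i, 1 ≤ i → i ≤ S →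
        ε ≤ ‖(((4 : ℝ) ^ (a * l) * 2 ^ (s₀ + K * i) * β / 3 ^ (s₀ + K * i) : ℝ) : T) - τ‖) ⊆
        (range m).biUnion (fun i₀ => (range L).filter (fun l => ∀ i, 1 ≤ i → i ≤ S →
        ε / 2 ≤ ‖(((4 : ℝ) ^ (a * l) * 2 ^ (s₀ + K * i) * β / 3 ^ (s₀ + K * i) : ℝ) : T) -
          (((i₀ : ℝ) / m : ℝ) : T)‖)) := by
      intro l hl
      rw [mem_filter] at hl
      obtain ⟨hlL, τ, hτ⟩ := hl
      obtain ⟨i₀, hi₀, hnet⟩ := T2_net hm0 τ
      rw [mem_biUnion]
      refine ⟨i₀, mem_range.2 hi₀, ?_⟩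
      refine (T2_mem_filter _ _ _ _).2 ⟨hlL, fun i h1 h2 => ?_⟩
      have h3 := hτ i h1 h2
      have h4 := norm_sub_le_norm_sub_add_norm_sub
        (((4 : ℝ) ^ (a * l) * 2 ^ (s₀ + K * i) * β / 3 ^ (s₀ + K * i) : ℝ) : T)
        (((i₀ : ℝ) / m : ℝ) : T) τ
      rw [norm_sub_rev (((i₀ : ℝ) / m : ℝ) : T) τ] at h4
      linarith
    have hcard := (card_le_card hsub).trans card_biUnion_le
    calc (((range L).filter (fun l => ∃ τ : T, ∀ i, 1 ≤ i → i ≤ S →
        ε ≤ ‖(((4 : ℝ) ^ (a * l) * 2 ^ (s₀ + K * i) * β / 3 ^ (s₀ + K * i) : ℝ) : T) - τ‖)).card : ℝ)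
        ≤ ((∑ i₀ ∈ range m, ((range L).filter (fun l => ∀ i, 1 ≤ i → i ≤ S →
        ε / 2 ≤ ‖(((4 : ℝ) ^ (a * l) * 2 ^ (s₀ + K * i) * β / 3 ^ (s₀ + K * i) : ℝ) : T) -
          (((i₀ : ℝ) / m : ℝ) : T)‖)).card : ℕ) : ℝ) := by exact_mod_cast hcard
      _ = ∑ i₀ ∈ range m, (((range L).filter (fun l => ∀ i, 1 ≤ i → i ≤ S →
        ε / 2 ≤ ‖(((4 : ℝ) ^ (a * l) * 2 ^ (s₀ + K * i) * β / 3 ^ (s₀ + K * i) : ℝ) : T) -
          (((i₀ : ℝ) / m : ℝ) : T)‖)).card : ℝ) := by push_cast; rfl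
      _ ≤ ∑ i₀ ∈ range m, η / m * L := by
        apply sum_le_sum
        intro i₀ _
        convert hone β hβ s₀ hs₀ (((i₀ : ℝ) / m : ℝ) : T) using 3
      _ = η * L := by
        rw [sum_const, card_range, nsmul_eq_mul]
        field_simp
  intro β hβ s₀ hs₀ M
  induction M with
  | zero => simp
  | succ M ih =>
    have hβ' : ¬ (3 : ℤ) ∣ β * 4 ^ (a * (M * L)) := by
      intro h
      have h3 : Prime (3 : ℤ) := Int.prime_three
      rcases h3.dvd_or_dvd h with h | h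
      · exact hβ h
      · have := h3.dvd_of_dvd_pow h
        norm_num at this
    have hb := hblock _ hβ' s₀ hs₀
    have e1 : (M + 1) * L = M * L + L := by ring
    rw [e1, ← Nat.count_eq_card_filter_range, Nat.count_add, Nat.count_eq_card_filter_range,
      Nat.count_eq_card_filter_range]
    have e2 : (range L).filter (fun k => ∃ τ : T, ∀ i, 1 ≤ i → i ≤ S →
        ε ≤ ‖(((4 : ℝ) ^ (a * (M * L + k)) * 2 ^ (s₀ + K * i) * β / 3 ^ (s₀ + K * i) : ℝ) : T) - τ‖) =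
        (range L).filter (fun l => ∃ τ : T, ∀ i, 1 ≤ i → i ≤ S →
        ε ≤ ‖(((4 : ℝ) ^ (a * l) * 2 ^ (s₀ + K * i) * ((β * 4 ^ (a * (M * L)) : ℤ) : ℝ) /
          3 ^ (s₀ + K * i) : ℝ) : T) - τ‖) := by
      apply filter_congr
      intro l _
      have e3 : ∀ i : ℕ, (4 : ℝ) ^ (a * (M * L + l)) * 2 ^ (s₀ + K * i) * β / 3 ^ (s₀ + K * i) =
          (4 : ℝ) ^ (a * l) * 2 ^ (s₀ + K * i) * ((β * 4 ^ (a * (M * L)) : ℤ) : ℝ) /
          3 ^ (s₀ + K * i) := by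
        intro i
        push_cast
        rw [mul_add, pow_add]
        ring
      simp only [e3]
    rw [e2, Nat.cast_add, Nat.cast_add, Nat.cast_one]
    linarith

/-! ### Jumps -/

/-- `3 x = 0` on the circle -/
lemma t3_third {x : T} (h : 3 • x = 0) : ∃ c : ℤ, x = ((c / 3 : ℝ) : T) := by
  obtain ⟨r, rfl⟩ := QuotientAddGroup.mk_surjective x
  change 3 • (r : T) = 0 at h
  rw [nsmul_coe, AddCircle.coe_eq_zero_iff] at h
  obtain ⟨m, hm⟩ := h
  refine ⟨m, ?_⟩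
  change (r : T) = _
  congr 1
  simp at hm
  rw [hm]
  ring

/-- going down one step -/
lemma t3_step {x y : T} (h : 3 • y = 2 • x) {r : ℝ} (hx : x = (r : T)) :
    ∃ c : ℤ, y = ((2 / 3 * r + c / 3 : ℝ) : T) := by
  have h1 : 3 • (y - ((2 / 3 * r : ℝ) : T)) = 0 := by
    rw [nsmul_sub, h, hx, nsmul_coe, nsmul_coe]
    push_cast
    rw [show (3 : ℝ) * (2 / 3 * r) = 2 * r by ring, sub_self]
  obtain ⟨c, hc⟩ := t3_third h1
  refine ⟨c, ?_⟩
  rw [AddCircle.coe_add, ← hc]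
  abel

lemma t3_add_int (r : ℝ) (m : ℤ) : ((r + m : ℝ) : T) = (r : T) := by
  rw [AddCircle.coe_add, coe_int, add_zero]

/-- the integer `β` -/
lemma t3_aux (D : ℕ → T) (t₁ : ℝ) (n : ℕ) : (∀ i ≤ n, 3 • D (i + 1) = 2 • D i) →
    D 0 = (t₁ : T) → D 1 ≠ ((2 / 3 * t₁ : ℝ) : T) → ∃ β : ℤ, ¬ (3 : ℤ) ∣ β ∧
      ∀ s, 1 ≤ s → s ≤ n + 1 → D s = (((2 / 3) ^ s * t₁ + 2 ^ s * β / 3 ^ s : ℝ) : T) := by
  intro hD h0 h1
  induction n with
  | zero =>
    obtain ⟨c, hc⟩ := t3_step (hD 0 le_rfl) h0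
    rw [zero_add] at hc
    refine ⟨2 * c, ?_, ?_⟩
    · intro h3
      obtain ⟨d, hd⟩ : (3 : ℤ) ∣ c := by omega
      apply h1
      rw [hc, hd]
      push_cast
      rw [show (2 / 3 * t₁ + 3 * (d : ℝ) / 3 : ℝ) = 2 / 3 * t₁ + d by ring, t3_add_int]
    · intro s hs1 hs2
      obtain rfl : s = 1 := by omega
      rw [hc, pow_one, pow_one, pow_one, ← t3_add_int _ c]
      congr 1
      push_cast
      ring
  | succ n ih =>
    obtain ⟨β, hβ, hs⟩ := ih (fun i hi => hD i (by omega))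
    obtain ⟨c, hc⟩ := t3_step (hD (n + 1) le_rfl) (hs (n + 1) (by omega) le_rfl)
    obtain ⟨d, e, hde⟩ : ∃ d e : ℤ, 2 ^ (n + 2) * d = c + 3 * e := by
      have hcop : IsCoprime (2 ^ (n + 2) : ℤ) 3 := by
        apply IsCoprime.pow_left
        exact ⟨-1, 1, by norm_num⟩
      obtain ⟨a, b, hab⟩ := hcop
      refine ⟨a * c, -(b * c), ?_⟩
      linear_combination c * hab
    refine ⟨β + 3 ^ (n + 1) * d, ?_, ?_⟩
    · intro h3
      apply hβ
      have h4 : (3 : ℤ) ∣ 3 ^ (n + 1) * d := Dvd.dvd.mul_right (dvd_pow_self 3 (by omega)) d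
      exact (Int.dvd_add_left h4).1 h3
    · intro s hs1 hs2
      rcases Nat.lt_or_ge s (n + 2) with h | h
      · rw [hs s hs1 (by omega)]
        obtain ⟨m, hm⟩ : ∃ m, n + 1 = s + m := ⟨n + 1 - s, by omega⟩
        rw [← t3_add_int _ (2 ^ s * 3 ^ m * d)]
        congr 1
        push_cast
        rw [hm, pow_add]
        field_simp
        ring
      · obtain rfl : s = n + 2 := by omega
        rw [show n + 1 + 1 = n + 2 by ring] at hc
        rw [hc, ← t3_add_int _ e]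
        congr 1
        have hde' : (2 : ℝ) ^ (n + 2) * d = c + 3 * e := by exact_mod_cast hde
        push_cast
        rw [mul_add ((2 : ℝ) ^ (n + 2)), mul_left_comm ((2 : ℝ) ^ (n + 2)), hde', div_pow, div_pow,
          pow_succ (3 : ℝ) (n + 1), pow_succ (2 : ℝ) (n + 1)]
        field_simp
        ring

/-- T3. The jump lemma (time runs backwards in `D`). -/
lemma jump {D : ℕ → T} {I S : ℕ} (hD : ∀ i < I + S, 3 • D (i + 1) = 2 • D i) {t κ : ℝ}
    (ht : D 0 = (t : T)) (hκ : |t| ≤ κ) :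
    D I = (((2 / 3) ^ I * t : ℝ) : T) ∨
    ∃ i₁ < I, ∃ t₁ : ℝ, |t₁| ≤ κ ∧ ∃ β : ℤ, ¬ (3 : ℤ) ∣ β ∧ ∀ s, 1 ≤ s → s ≤ S →
      D (i₁ + s) = (((2 / 3) ^ s * t₁ + 2 ^ s * β / 3 ^ s : ℝ) : T) := by
  by_cases hI : D I = (((2 / 3) ^ I * t : ℝ) : T)
  · exact Or.inl hI
  right
  have hex : ∃ m, D m ≠ (((2 / 3) ^ m * t : ℝ) : T) := ⟨I, hI⟩
  have hm := Nat.find_spec hex
  have hmI : Nat.find hex ≤ I := Nat.find_min' hex hI
  have hm0 : Nat.find hex ≠ 0 := by
    intro h0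
    rw [h0] at hm
    apply hm
    rw [ht, pow_zero, one_mul]
  obtain ⟨i₁, hi₁⟩ : ∃ i₁, Nat.find hex = i₁ + 1 := Nat.exists_eq_succ_of_ne_zero hm0
  have hlast : D i₁ = (((2 / 3) ^ i₁ * t : ℝ) : T) := by
    by_contra hcon
    exact Nat.find_min hex (m := i₁) (by omega) hcon
  refine ⟨i₁, by omega, (2 / 3) ^ i₁ * t, ?_, ?_⟩
  · rw [abs_mul, abs_of_nonneg (by positivity)]
    calc (2 / 3 : ℝ) ^ i₁ * |t| ≤ 1 * |t| :=
          mul_le_mul_of_nonneg_right (pow_le_one₀ (by norm_num) (by norm_num)) (abs_nonneg t)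
      _ ≤ κ := by rw [one_mul]; exact hκ
  · rcases Nat.eq_zero_or_pos S with rfl | hS
    · exact ⟨1, by norm_num, fun s hs1 hs2 => by omega⟩
    · obtain ⟨n, rfl⟩ : ∃ n, S = n + 1 := ⟨S - 1, by omega⟩
      obtain ⟨β, hβ, hs⟩ := t3_aux (fun s => D (i₁ + s)) ((2 / 3) ^ i₁ * t) n
        (fun i hi => by
          rw [← add_assoc]
          exact hD _ (by omega)) hlast (by
          rw [hi₁] at hm
          rw [← mul_assoc, ← pow_succ']
          exact hm)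
      exact ⟨β, hβ, hs⟩

/-! ### Contact -/

/-- multiplication of torsion points depends on the residue -/
lemma t4_torsion {Q : ℕ} {ζ : T} (hζ : Q • ζ = 0) {a b : ℕ} (h : a ≡ b [MOD Q]) :
    a • ζ = b • ζ := by
  have h1 : ∀ a b : ℕ, a ≤ b → a ≡ b [MOD Q] → a • ζ = b • ζ := by
    intro a b hab h
    obtain ⟨d, hd⟩ := (Nat.modEq_iff_dvd' hab).1 h
    obtain rfl : b = a + Q * d := by omega
    rw [add_nsmul, mul_nsmul, hζ, nsmul_zero, add_zero]
  rcases le_total a b with hab | hab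
  · exact h1 a b hab h
  · exact (h1 b a hab h.symm).symm

/-- T4. Contact with a torsion point makes most of the following positions good. -/
lemma contact {Q : ℕ} (hQ0 : 0 < Q) (hQ : Q.Coprime 6) {ε η : ℝ} (hε : 0 < ε) (hη : 0 < η)
    (R₀ : ℕ) : ∃ R c : ℕ, ∃ κ : ℝ, R₀ ≤ R ∧ 0 < R ∧ 0 < κ ∧ κ ≤ 1 ∧
      ∀ C, Q ≤ C → c ≤ C → ∀ v, Seq v → ∀ E M r l, r ≤ C → Esc C v E M l →
        Ct Q κ v M r l →
        (((range R).filter (fun l' => ¬ Gd ε v E (M + r) (l + l'))).card : ℝ) ≤ η * R := by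
  set p := Nat.totient Q with hp
  have hp0 : 0 < p := Nat.totient_pos.2 hQ0
  have hQ2 : Nat.Coprime 2 Q := (Nat.Coprime.coprime_dvd_right (by norm_num : 2 ∣ 6) hQ).symm
  have hQ3 : Nat.Coprime 3 Q := (Nat.Coprime.coprime_dvd_right (by norm_num : 3 ∣ 6) hQ).symm
  have h2 : 2 ^ p ≡ 1 [MOD Q] := Nat.ModEq.pow_totient hQ2
  have h3 : 3 ^ p ≡ 1 [MOD Q] := Nat.ModEq.pow_totient hQ3
  obtain ⟨S, L, hL, hmech⟩ := mech 1 p one_pos hp0 (half_pos hε) hη
  have hR : 0 < (R₀ + 1) * L := Nat.mul_pos (Nat.succ_pos _) hL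
  refine ⟨(R₀ + 1) * L, p * S, min 1 (ε / 4 ^ ((R₀ + 1) * L + 1)), ?_, hR,
    lt_min one_pos (by positivity), min_le_left _ _, ?_⟩
  · calc R₀ ≤ R₀ + 1 := Nat.le_succ _
      _ ≤ (R₀ + 1) * L := Nat.le_mul_of_pos_right _ hL
  intro C hQC hcC v hv E M r l hrC hEsc hCt
  obtain ⟨n, hn1, hn2, ζ, hζ, hnζ⟩ := hCt
  set κ : ℝ := min 1 (ε / 4 ^ ((R₀ + 1) * L + 1)) with hκ
  obtain ⟨hEM, hesc⟩ := hEsc
  -- the periodic sequence
  let z : ℕ → T := fun i => (2 * 3 ^ (p - 1)) ^ i • ζ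
  have hz : ∀ i, 3 • z (i + 1) = 2 • z i := by
    intro i
    change 3 • ((2 * 3 ^ (p - 1)) ^ (i + 1) • ζ) = 2 • ((2 * 3 ^ (p - 1)) ^ i • ζ)
    rw [← mul_nsmul', ← mul_nsmul']
    apply t4_torsion hζ
    have h4 : 3 * (2 * 3 ^ (p - 1)) ^ (i + 1) = 2 * (2 * 3 ^ (p - 1)) ^ i * 3 ^ p := by
      obtain ⟨m, hm⟩ : ∃ m, p = m + 1 := ⟨p - 1, by omega⟩
      rw [hm, Nat.add_sub_cancel]
      ring
    rw [h4]
    calc 2 * (2 * 3 ^ (p - 1)) ^ i * 3 ^ p ≡ 2 * (2 * 3 ^ (p - 1)) ^ i * 1 [MOD Q] :=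
          h3.mul_left _
      _ = 2 * (2 * 3 ^ (p - 1)) ^ i := mul_one _
  have hzp : ∀ i j, z (i + p * j) = z i := by
    intro i j
    change (2 * 3 ^ (p - 1)) ^ (i + p * j) • ζ = (2 * 3 ^ (p - 1)) ^ i • ζ
    apply t4_torsion hζ
    have h4 : (2 * 3 ^ (p - 1)) ^ (i + p * j) =
        (2 * 3 ^ (p - 1)) ^ i * ((2 ^ p) * (3 ^ p) ^ (p - 1)) ^ j := by
      rw [pow_add, pow_mul, mul_pow 2 _ p, ← pow_mul, ← pow_mul, mul_comm (p - 1) p, pow_mul]
    have h5 : ((2 ^ p) * (3 ^ p) ^ (p - 1)) ^ j ≡ 1 [MOD Q] := by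
      have := (h2.mul (h3.pow (p - 1))).pow j
      simpa using this
    rw [h4]
    calc (2 * 3 ^ (p - 1)) ^ i * ((2 ^ p) * (3 ^ p) ^ (p - 1)) ^ j ≡
          (2 * 3 ^ (p - 1)) ^ i * 1 [MOD Q] := h5.mul_left _
      _ = (2 * 3 ^ (p - 1)) ^ i := mul_one _
  have hQz : ∀ i, Q • z i = 0 := by
    intro i
    change Q • ((2 * 3 ^ (p - 1)) ^ i • ζ) = 0
    rw [nsmul_left_comm, hζ, nsmul_zero]
  let D : ℕ → T := fun i => 4 ^ l • v (n - i) - z i
  have hnE : E + p * S ≤ n := by omega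
  have hD : ∀ i < (n - E - p * S) + p * S, 3 • D (i + 1) = 2 • D i := by
    intro i hi
    change 3 • (4 ^ l • v (n - (i + 1)) - z (i + 1)) = 2 • (4 ^ l • v (n - i) - z i)
    rw [nsmul_sub, nsmul_sub, hz, nsmul_left_comm (v (n - (i + 1))) (4 ^ l) 3,
      nsmul_left_comm (v (n - i)) (4 ^ l) 2]
    have h6 := hv (n - (i + 1))
    rw [show n - (i + 1) + 1 = n - i by omega] at h6
    rw [h6]
  obtain ⟨t, ht, ht', -⟩ := exists_rep (D 0)
  have hD0 : ‖D 0‖ ≤ κ := by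
    change ‖4 ^ l • v (n - 0) - (2 * 3 ^ (p - 1)) ^ 0 • ζ‖ ≤ κ
    rw [pow_zero, one_nsmul, Nat.sub_zero]
    exact hnζ
  have htκ : |t| ≤ κ := by rw [ht']; exact hD0
  rcases jump hD ht.symm htκ with hJ | ⟨i₁, hi₁, t₁, ht₁, β, hβ, hJ⟩
  · -- no jump: contradiction to the escape condition
    exfalso
    have h7 := hesc Q (p * S) hQ0 hQC hcC
    have h8 : 4 ^ l • v (E + p * S) = D (n - E - p * S) + z (n - E - p * S) := by
      change _ = 4 ^ l • v (n - (n - E - p * S)) - z (n - E - p * S) + z (n - E - p * S)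
      rw [show n - (n - E - p * S) = E + p * S by omega, sub_add_cancel]
    rw [h8, nsmul_add, hQz, add_zero, hJ] at h7
    have h9 : ‖Q • (((2 / 3) ^ (n - E - p * S) * t : ℝ) : T)‖ ≤
        C * (2 / 3 : ℝ) ^ (M - E - 2 * C) := by
      calc ‖Q • (((2 / 3) ^ (n - E - p * S) * t : ℝ) : T)‖
          ≤ Q * ‖(((2 / 3) ^ (n - E - p * S) * t : ℝ) : T)‖ := norm_nsmul_le' _ _
        _ ≤ Q * ((2 / 3) ^ (n - E - p * S) * 1) := by
            refine mul_le_mul_of_nonneg_left ((norm_coe_le _).trans ?_) (Nat.cast_nonneg _)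
            rw [abs_mul, abs_of_nonneg (by positivity)]
            exact mul_le_mul_of_nonneg_left (htκ.trans (min_le_left _ _)) (by positivity)
        _ ≤ C * (2 / 3 : ℝ) ^ (M - E - 2 * C) := by
            rw [mul_one]
            refine mul_le_mul (by exact_mod_cast hQC) ?_ (by positivity) (Nat.cast_nonneg _)
            exact pow_le_pow_of_le_one (by norm_num) (by norm_num) (by omega)
    exact absurd h7 (not_lt.2 h9)
  · -- jump
    have hbad := hmech β hβ 0 hp0 (R₀ + 1)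
    have hsub : (range ((R₀ + 1) * L)).filter (fun l' => ¬ Gd ε v E (M + r) (l + l')) ⊆
        (range ((R₀ + 1) * L)).filter (fun l => ∃ τ : T, ∀ i, 1 ≤ i → i ≤ S →
        ε / 2 ≤ ‖(((4 : ℝ) ^ (1 * l) * 2 ^ (0 + p * i) * β / 3 ^ (0 + p * i) : ℝ) : T) - τ‖) := by
      intro l' hl'
      rw [mem_filter] at hl' ⊢
      refine ⟨hl'.1, ?_⟩
      by_contra hcon
      push Not at hcon
      apply hl'.2
      intro τ
      obtain ⟨i, hi1, hiS, hi⟩ := hcon (τ - 4 ^ l' • z i₁)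
      have hpi : p * i ≤ p * S := Nat.mul_le_mul_left _ hiS
      have hpi1 : 1 ≤ p * i := Nat.mul_pos hp0 hi1
      refine ⟨n - (i₁ + p * i), by omega, by omega, ?_⟩
      have h10 := hJ (p * i) hpi1 hpi
      have h11 : 4 ^ l • v (n - (i₁ + p * i)) = D (i₁ + p * i) + z i₁ := by
        rw [← hzp i₁ i]
        change _ = 4 ^ l • v (n - (i₁ + p * i)) - z (i₁ + p * i) + z (i₁ + p * i)
        rw [sub_add_cancel]
      have h12 : 4 ^ (l + l') • v (n - (i₁ + p * i)) - τ =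
          (((4 : ℝ) ^ (1 * l') * 2 ^ (0 + p * i) * β / 3 ^ (0 + p * i) : ℝ) : T) -
            (τ - 4 ^ l' • z i₁) + (((4 : ℝ) ^ l' * ((2 / 3) ^ (p * i) * t₁) : ℝ) : T) := by
        rw [pow_add, mul_nsmul, h11, h10, nsmul_add, nsmul_coe]
        push_cast
        rw [mul_add, AddCircle.coe_add, one_mul, zero_add,
          show (4 : ℝ) ^ l' * (2 ^ (p * i) * β / 3 ^ (p * i)) =
            4 ^ l' * 2 ^ (p * i) * β / 3 ^ (p * i) by ring]
        abel
      have h13 : |(4 : ℝ) ^ l' * ((2 / 3) ^ (p * i) * t₁)| ≤ ε / 4 := by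
        rw [abs_mul, abs_mul, abs_of_nonneg (by positivity : (0 : ℝ) ≤ 4 ^ l'),
          abs_of_nonneg (by positivity : (0 : ℝ) ≤ (2 / 3) ^ (p * i))]
        calc (4 : ℝ) ^ l' * ((2 / 3) ^ (p * i) * |t₁|)
            ≤ 4 ^ ((R₀ + 1) * L) * (1 * κ) := by
              refine mul_le_mul ?_ ?_ (by positivity) (by positivity)
              · exact pow_le_pow_right₀ (by norm_num) (mem_range.1 hl'.1).le
              · exact mul_le_mul (pow_le_one₀ (by norm_num) (by norm_num)) ht₁ (abs_nonneg _)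
                  zero_le_one
          _ ≤ 4 ^ ((R₀ + 1) * L) * (ε / 4 ^ ((R₀ + 1) * L + 1)) := by
              rw [one_mul]
              exact mul_le_mul_of_nonneg_left (min_le_right _ _) (by positivity)
          _ = ε / 4 := by
              rw [pow_succ]
              field_simp
      rw [h12]
      calc _ ≤ ‖(((4 : ℝ) ^ (1 * l') * 2 ^ (0 + p * i) * β / 3 ^ (0 + p * i) : ℝ) : T) -
            (τ - 4 ^ l' • z i₁)‖ + ‖(((4 : ℝ) ^ l' * ((2 / 3) ^ (p * i) * t₁) : ℝ) : T)‖ :=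
            norm_add_le _ _
        _ < ε / 2 + ε / 4 := add_lt_add_of_lt_of_le hi ((norm_coe_le _).trans h13)
        _ < ε := by linarith
    calc (((range ((R₀ + 1) * L)).filter (fun l' => ¬ Gd ε v E (M + r) (l + l'))).card : ℝ)
        ≤ (((range ((R₀ + 1) * L)).filter (fun l => ∃ τ : T, ∀ i, 1 ≤ i → i ≤ S →
        ε / 2 ≤ ‖(((4 : ℝ) ^ (1 * l) * 2 ^ (0 + p * i) * β / 3 ^ (0 + p * i) : ℝ) : T) -
          τ‖)).card : ℝ) := by exact_mod_cast card_le_card hsub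
      _ ≤ η * (((R₀ + 1 : ℕ) : ℝ) * L) := hbad
      _ = η * (((R₀ + 1) * L : ℕ) : ℝ) := by push_cast; ring

/-! ### The far step -/

lemma seq_iter {v : ℕ → T} (hv : Seq v) (n u : ℕ) : 2 ^ u • v (n + u) = 3 ^ u • v n := by
  induction u with
  | zero => simp
  | succ u ih =>
    have h1 : 2 ^ (u + 1) • v (n + (u + 1)) = 2 ^ u • (2 • v (n + u + 1)) := by
      rw [← mul_nsmul', ← pow_succ, add_assoc]
    rw [h1, hv (n + u), ← mul_nsmul', mul_comm (2 ^ u) 3, mul_nsmul', ih, ← mul_nsmul', ← pow_succ']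

lemma transport {v : ℕ → T} (hv : Seq v) (n : ℕ) {J u : ℕ} (hu : u ≤ 2 * J) :
    4 ^ J • v (n + u) = (2 ^ (2 * J - u) * 3 ^ u) • v n := by
  have h1 : 4 ^ J = 2 ^ (2 * J - u) * 2 ^ u := by
    rw [← pow_add, Nat.sub_add_cancel hu, pow_mul]
    norm_num
  rw [h1, mul_nsmul', seq_iter hv, ← mul_nsmul']

lemma near_torsion {P : ℕ} (hP : 0 < P) {x : T} {κ : ℝ} (h : ‖P • x‖ ≤ κ) :
    ∃ ζ : T, P • ζ = 0 ∧ ‖x - ζ‖ ≤ κ := by
  obtain ⟨r, hr, -, -⟩ := exists_rep x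
  have hP' : (1 : ℝ) ≤ P := by exact_mod_cast hP
  have hP0 : (0 : ℝ) < P := by linarith
  refine ⟨((round (P * r) / P : ℝ) : T), ?_, ?_⟩
  · rw [nsmul_coe, mul_div_cancel₀ _ hP0.ne', coe_int]
  · rw [← hr, ← AddCircle.coe_sub]
    refine (norm_coe_le _).trans ?_
    have h1 : r - round (P * r) / P = (P * r - round (P * r)) / P := by field_simp
    have h2 : ‖P • x‖ = |P * r - round (P * r)| := by
      rw [← hr, nsmul_coe, AddCircle.norm_eq]
      simp
    rw [h1, abs_div, abs_of_pos hP0, ← h2]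
    rw [div_le_iff₀ hP0]
    have : 0 ≤ ‖P • x‖ := norm_nonneg _
    nlinarith

lemma pigeon {m : ℕ} (hm : 0 < m) (y : ℕ → T) : ∃ a b, a < b ∧ b ≤ m ∧ ‖y a - y b‖ ≤ 1 / m := by
  have hm' : (0 : ℝ) < m := by exact_mod_cast hm
  choose r hr _ _ using fun a => exists_rep (y a)
  have hf : ∀ a ∈ range (m + 1), ⌊m * Int.fract (r a)⌋₊ ∈ range m := by
    intro a _
    rw [Finset.mem_range, Nat.floor_lt (mul_nonneg hm'.le (Int.fract_nonneg _))]
    nlinarith [Int.fract_lt_one (r a)]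
  obtain ⟨a, ha, b, hb, hab, heq⟩ := Finset.exists_ne_map_eq_of_card_lt_of_maps_to
    (by simp : (range m).card < (range (m + 1)).card) hf
  have key : ∀ a b, ⌊m * Int.fract (r a)⌋₊ = ⌊m * Int.fract (r b)⌋₊ → ‖y a - y b‖ ≤ 1 / m := by
    intro a b heq
    have h1 : y a - y b = ((Int.fract (r a) - Int.fract (r b) : ℝ) : T) := by
      have h2 : ∀ c, y c = ((Int.fract (r c) : ℝ) : T) := by
        intro c
        rw [← hr c, ← Int.self_sub_floor, AddCircle.coe_sub, coe_int, sub_zero]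
      rw [h2 a, h2 b, ← AddCircle.coe_sub]
    rw [h1]
    refine (norm_coe_le _).trans ?_
    have h3 := Nat.floor_le (mul_nonneg hm'.le (Int.fract_nonneg (r a)))
    have h4 := Nat.floor_le (mul_nonneg hm'.le (Int.fract_nonneg (r b)))
    have h5 := Nat.lt_floor_add_one (m * Int.fract (r a))
    have h6 := Nat.lt_floor_add_one (m * Int.fract (r b))
    rw [heq] at h3 h5
    rw [abs_le, ← neg_div, div_le_iff₀ hm', le_div_iff₀ hm']
    constructor <;> nlinarith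
  have ha' : a ≤ m := by simp at ha; omega
  have hb' : b ≤ m := by simp at hb; omega
  rcases Nat.lt_or_ge a b with h | h
  · exact ⟨a, b, h, hb', key a b heq⟩
  · exact ⟨b, a, by omega, ha', key b a heq.symm⟩

lemma qsmul_inv {q : ℕ} (hq : 0 < q) {c : ℕ} (hc : c ≡ 1 [MOD q]) :
    c • ((1 / q : ℝ) : T) = ((1 / q : ℝ) : T) := by
  have hq' : (0 : ℝ) < q := by exact_mod_cast hq
  have h1 : ((c : ℤ) : ℤ) - 1 = q * (((c : ℤ) - 1) / q) := by
    rw [Int.mul_ediv_cancel']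
    have := (Nat.modEq_iff_dvd.1 hc.symm)
    push_cast at this
    exact this
  set z : ℤ := ((c : ℤ) - 1) / q with hz
  have h2 : (c : ℝ) = q * z + 1 := by
    have : (c : ℤ) = q * z + 1 := by linarith
    exact_mod_cast this
  rw [nsmul_coe, h2]
  have h3 : ((q : ℝ) * z + 1) * (1 / q) = z + 1 / q := by field_simp
  rw [h3, AddCircle.coe_add, coe_int, zero_add]

/-- Transporting a relation `4^l v n - 4^l v n' = s/q + O(δ')` to the position `l + J + k l'`. -/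
lemma transport_rel {q k : ℕ} (hq : 0 < q) (h2 : 2 ^ k ≡ 1 [MOD q]) (h3 : 3 ^ k ≡ 1 [MOD q])
    {v : ℕ → T} (hv : Seq v) {l J u l' s n n' : ℕ} {δ' : ℝ} (hJ : k ∣ J) (hu : k ∣ u)
    (hu2 : u ≤ 2 * J) (h : ‖4 ^ l • v n - 4 ^ l • v n' - s • ((1 / q : ℝ) : T)‖ ≤ δ') :
    ‖4 ^ (l + J + k * l') • v (n + u) - 4 ^ (l + J + k * l') • v (n' + u)
      - s • ((1 / q : ℝ) : T)‖ ≤ 4 ^ (k * l') * 9 ^ J * δ' := by
  set c : ℕ := 4 ^ (k * l') * (2 ^ (2 * J - u) * 3 ^ u) with hc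
  have h1 : ∀ n, 4 ^ (l + J + k * l') • v (n + u) = c • (4 ^ l • v n) := by
    intro n
    have e1 : 4 ^ (l + J + k * l') = 4 ^ (k * l') * 4 ^ l * 4 ^ J := by
      rw [← pow_add, ← pow_add]; congr 1; ring
    rw [e1, mul_nsmul', transport hv n hu2, ← mul_nsmul', ← mul_nsmul', hc]
    congr 1
    ring
  have hp2 : ∀ z, k ∣ z → 2 ^ z ≡ 1 [MOD q] := by
    rintro _ ⟨t, rfl⟩
    rw [pow_mul]
    simpa using h2.pow t
  have hp3 : ∀ z, k ∣ z → 3 ^ z ≡ 1 [MOD q] := by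
    rintro _ ⟨t, rfl⟩
    rw [pow_mul]
    simpa using h3.pow t
  have hc1 : c ≡ 1 [MOD q] := by
    have e1 : (4 : ℕ) ^ (k * l') = 2 ^ (k * (2 * l')) := by
      rw [show (4 : ℕ) = 2 ^ 2 by norm_num, ← pow_mul]; congr 1; ring
    have e2 : 4 ^ (k * l') ≡ 1 [MOD q] := by
      rw [e1]; exact hp2 _ (Dvd.intro _ rfl)
    have e3 : 2 ^ (2 * J - u) ≡ 1 [MOD q] := hp2 _ (Nat.dvd_sub (Dvd.dvd.mul_left hJ 2) hu)
    have e4 : 3 ^ u ≡ 1 [MOD q] := hp3 _ hu
    have := e2.mul (e3.mul e4)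
    simpa [hc] using this
  have h4 : 4 ^ (l + J + k * l') • v (n + u) - 4 ^ (l + J + k * l') • v (n' + u)
      - s • ((1 / q : ℝ) : T) = c • (4 ^ l • v n - 4 ^ l • v n' - s • ((1 / q : ℝ) : T)) := by
    rw [h1, h1, nsmul_sub, nsmul_sub]
    congr 1
    rw [← mul_nsmul', mul_comm c s, mul_nsmul', qsmul_inv hq hc1]
  rw [h4]
  refine (norm_nsmul_le' _ _).trans ?_
  have h5 : (c : ℝ) ≤ 4 ^ (k * l') * 9 ^ J := by
    have e1 : 2 ^ (2 * J - u) * 3 ^ u ≤ 9 ^ J := by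
      have : (9 : ℕ) ^ J = 3 ^ (2 * J - u) * 3 ^ u := by
        rw [← pow_add, Nat.sub_add_cancel hu2, pow_mul]
        norm_num
      rw [this]
      gcongr
      norm_num
    have e2 : c ≤ 4 ^ (k * l') * 9 ^ J := by
      rw [hc]
      gcongr
    exact_mod_cast e2
  have h6 : 0 ≤ δ' := le_trans (norm_nonneg _) h
  calc (c : ℝ) * ‖4 ^ l • v n - 4 ^ l • v n' - s • ((1 / q : ℝ) : T)‖ ≤ c * δ' := by gcongr
    _ ≤ 4 ^ (k * l') * 9 ^ J * δ' := by gcongr


lemma seq_nsmul {v : ℕ → T} (hv : Seq v) (c : ℕ) : Seq (fun n => c • v n) := by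
  intro n
  simp only
  rw [← mul_nsmul', mul_comm, mul_nsmul', hv n, ← mul_nsmul', mul_comm, mul_nsmul']

lemma coprime_six {c : ℕ} (hc : 0 < c) : (3 ^ c - 2 ^ c).Coprime 6 := by
  have hlt : 2 ^ c < 3 ^ c := Nat.pow_lt_pow_left (by norm_num) hc.ne'
  have h6 : (6 : ℕ) = 2 * 3 := by norm_num
  rw [h6]
  apply Nat.Coprime.mul_right
  · apply Nat.Coprime.symm
    rw [Nat.Prime.coprime_iff_not_dvd Nat.prime_two]
    intro h
    have h2 : 2 ∣ 2 ^ c := dvd_pow_self 2 hc.ne'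
    have h3 : 2 ∣ 3 ^ c := by
      have := Nat.dvd_add h h2
      rwa [Nat.sub_add_cancel hlt.le] at this
    have := Nat.Prime.dvd_of_dvd_pow Nat.prime_two h3
    omega
  · apply Nat.Coprime.symm
    rw [Nat.Prime.coprime_iff_not_dvd Nat.prime_three]
    intro h
    have h2 : 3 ∣ 3 ^ c := dvd_pow_self 3 hc.ne'
    have h3 : 3 ∣ 2 ^ c := by
      have := Nat.dvd_sub h2 h
      rwa [Nat.sub_sub_self hlt.le] at this
    have := Nat.Prime.dvd_of_dvd_pow Nat.prime_three h3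
    omega

/-- T5. The step `j → j+1` at positions far from torsion points. -/
lemma far {q k : ℕ} (hq : 0 < q) (hk : 0 < k) (h2 : 2 ^ k ≡ 1 [MOD q]) (h3 : 3 ^ k ≡ 1 [MOD q])
    {δ η : ℝ} (hδ : 0 < δ) (hη : 0 < η) :
    ∃ L Q : ℕ, 0 < L ∧ 0 < Q ∧ Q.Coprime 6 ∧ ∀ κ : ℝ, 0 < κ → ∃ J : ℕ, ∃ δ' : ℝ, 0 < δ' ∧
      ∀ v, Seq v → ∀ M r j l, ¬ Ct Q κ v M (r + 2 * J) (l + J) → Bj q j δ' v M r l →
        (((range L).filter (fun l' => ¬ Bj q (j + 1) δ v M (r + 2 * J) (l + J + k * l'))).card : ℝ)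
          ≤ η * L := by
  obtain ⟨S, L, hL, hmech⟩ := mech k k hk hk (by positivity : 0 < δ / 4) hη
  set κ₀ : ℝ := δ / (4 * 4 ^ (k * L)) with hκ₀
  have hκ₀pos : 0 < κ₀ := by positivity
  set m : ℕ := ⌈1 / κ₀⌉₊ with hm
  have hm0 : 0 < m := Nat.ceil_pos.2 (by positivity)
  have hmκ : 1 / (m : ℝ) ≤ κ₀ := by
    have hm0' : (0 : ℝ) < m := by exact_mod_cast hm0
    rw [div_le_iff₀ hm0']
    have := Nat.le_ceil (1 / κ₀)
    rw [div_le_iff₀ hκ₀pos, ← hm] at this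
    linarith
  set Q : ℕ := ∏ c ∈ Finset.Icc 1 m, (3 ^ (k * c) - 2 ^ (k * c)) with hQ
  have hfac : ∀ c, 1 ≤ c → 2 ^ (k * c) < 3 ^ (k * c) := fun c hc =>
    Nat.pow_lt_pow_left (by norm_num) (Nat.mul_pos hk hc).ne'
  have hQpos : 0 < Q := Finset.prod_pos (fun c hc =>
    Nat.sub_pos_of_lt (hfac c (Finset.mem_Icc.1 hc).1))
  have hQc : Q.Coprime 6 := Nat.Coprime.prod_left (fun c hc =>
    coprime_six (Nat.mul_pos hk (Finset.mem_Icc.1 hc).1))
  refine ⟨L, Q, hL, hQpos, hQc, fun κ hκ => ?_⟩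
  obtain ⟨J₁, hJ₁⟩ := exists_pow_lt_of_lt_one (by positivity : 0 < κ / 2 ^ (k * m) / κ₀)
    (by norm_num : (2 / 3 : ℝ) < 1)
  set J' := m + J₁ + S + 1 with hJ'
  set J := k * J' with hJ
  have hJJ' : J' ≤ J := Nat.le_mul_of_pos_left _ hk
  set δ' := δ / (2 * (4 ^ (k * L) * 9 ^ J)) with hδ'
  refine ⟨J, δ', by positivity, ?_⟩
  intro v hv M r j l hct hbj
  obtain ⟨f, hf1, hf2⟩ := hbj
  set w : ℕ → T := fun n => 4 ^ (l + J) • v n with hw
  have hws : Seq w := seq_nsmul hv _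
  obtain ⟨a, b, hab, hbm, hclose⟩ := pigeon hm0 (fun a => w (f 0 + J + k * a + J₁))
  set D : ℕ → T := fun i => w (f 0 + J + k * a + J₁ - i) - w (f 0 + J + k * b + J₁ - i) with hD
  have hkS : k + k * S ≤ J := by
    rw [hJ, hJ']
    calc k + k * S = k * (S + 1) := by ring
      _ ≤ k * (m + J₁ + S + 1) := by gcongr; omega
  have hDs : ∀ i < J₁ + (k + k * S), 3 • D (i + 1) = 2 • D i := by
    intro i hi
    have e : ∀ c, 3 • w (f 0 + J + k * c + J₁ - (i + 1)) = 2 • w (f 0 + J + k * c + J₁ - i) := by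
      intro c
      have := hws (f 0 + J + k * c + J₁ - (i + 1))
      rw [← this]
      congr 2
      omega
    simp only [hD]
    rw [nsmul_sub, nsmul_sub, e, e]
  obtain ⟨t, ht, ht2, -⟩ := exists_rep (D 0)
  have htκ : |t| ≤ κ₀ := by
    rw [ht2]
    exact le_trans (by simpa [hD] using hclose) hmκ
  rcases jump hDs ht.symm htκ with hno | ⟨i₁, hi₁, t₁, ht₁, β, hβ, hDj⟩
  · exfalso
    apply hct
    have hf0 := hf1 0 (Nat.zero_le _)
    have hka : k * a ≤ k * m := by gcongr; omega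
    have hkm : k * m ≤ J := by rw [hJ]; gcongr; omega
    refine ⟨f 0 + J + k * a, by omega, by omega, ?_⟩
    obtain ⟨c, rfl⟩ : ∃ c, b = a + c := ⟨b - a, by omega⟩
    have hc1 : 1 ≤ c := by omega
    have hcm : c ≤ m := by omega
    have hP := hfac c hc1
    set P := 3 ^ (k * c) - 2 ^ (k * c) with hPdef
    have hP0 : 0 < P := Nat.sub_pos_of_lt hP
    set x := w (f 0 + J + k * a) with hx
    set X := w (f 0 + J + k * a + k * c) with hX
    have hDJ : D J₁ = x - X := by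
      simp only [hD]
      rw [Nat.add_sub_cancel, Nat.add_sub_cancel, hx, hX]
      congr 2
      ring
    have hnorm : ‖x - X‖ ≤ κ / 2 ^ (k * m) := by
      rw [← hDJ, hno]
      refine (norm_coe_le _).trans ?_
      rw [abs_mul, abs_of_pos (by positivity : (0 : ℝ) < (2 / 3) ^ J₁)]
      rw [lt_div_iff₀ hκ₀pos] at hJ₁
      calc (2 / 3 : ℝ) ^ J₁ * |t| ≤ (2 / 3) ^ J₁ * κ₀ := by gcongr
        _ ≤ κ / 2 ^ (k * m) := hJ₁.le
    have hiter : 2 ^ (k * c) • X = 3 ^ (k * c) • x := seq_iter hws _ _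
    have hPx : P • x = 2 ^ (k * c) • (X - x) := by
      rw [nsmul_sub, hiter, eq_sub_iff_add_eq, ← add_nsmul, hPdef, Nat.sub_add_cancel hP.le]
    have hPn : ‖P • x‖ ≤ κ := by
      rw [hPx]
      refine (norm_nsmul_le' _ _).trans ?_
      rw [norm_sub_rev]
      push_cast
      calc (2 : ℝ) ^ (k * c) * ‖x - X‖ ≤ 2 ^ (k * m) * (κ / 2 ^ (k * m)) := by
            gcongr
            norm_num
        _ = κ := by field_simp
    obtain ⟨ζ, hζ, hζ2⟩ := near_torsion hP0 hPn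
    refine ⟨ζ, ?_, hζ2⟩
    have hdvd : P ∣ Q := Finset.dvd_prod_of_mem (fun c => 3 ^ (k * c) - 2 ^ (k * c))
      (Finset.mem_Icc.2 ⟨hc1, hcm⟩)
    obtain ⟨d, hd⟩ := hdvd
    rw [hd, mul_nsmul, hζ, nsmul_zero]
  · set s₀ := (J₁ - i₁) % k with hs₀
    set t' := (J₁ - i₁) / k with ht'
    have hs₀k : s₀ < k := Nat.mod_lt _ hk
    have hdm : k * t' + s₀ = J₁ - i₁ := Nat.div_add_mod _ _
    have ht'J : t' ≤ J₁ := le_trans (Nat.div_le_self _ _) (Nat.sub_le _ _)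
    have hM := hmech β hβ s₀ hs₀k 1
    rw [one_mul, Nat.cast_one, one_mul] at hM
    refine le_trans ?_ hM
    rw [Nat.cast_le]
    apply Finset.card_le_card
    intro l' hl'
    rw [Finset.mem_filter] at hl' ⊢
    refine ⟨hl'.1, ?_⟩
    by_contra hcon
    push Not at hcon
    apply hl'.2
    have hl'L : l' < L := Finset.mem_range.1 hl'.1
    obtain ⟨i, hi1, hiS, hi⟩ := hcon ((1 / q : ℝ) : T)
    set s := s₀ + k * i with hs
    have hkS' : k * i ≤ k * S := by gcongr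
    have hki : 1 ≤ k * i := Nat.mul_pos hk hi1
    have hDs' := hDj s (by omega) (by omega)
    set ua := k * (J' + a + t' - i) with hua
    set ub := k * (J' + b + t' - i) with hub
    have hidx : ∀ c, f 0 + J + k * c + J₁ - (i₁ + s) = f 0 + k * (J' + c + t' - i) := by
      intro c
      have e1 : k * (J' + c + t' - i) = k * J' + k * c + k * t' - k * i := by
        rw [Nat.mul_sub, Nat.mul_add, Nat.mul_add]
      have e2 : k * i ≤ k * J' := by gcongr; omega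
      rw [e1, hs]
      omega
    have hDuv : D (i₁ + s) = w (f 0 + ua) - w (f 0 + ub) := by
      simp only [hD]
      rw [hidx, hidx]
    have hua2 : ua ≤ 2 * J := by
      rw [hua, hJ]
      calc k * (J' + a + t' - i) ≤ k * (2 * J') := by gcongr; omega
        _ = 2 * (k * J') := by ring
    have hub2 : ub ≤ 2 * J := by
      rw [hub, hJ]
      calc k * (J' + b + t' - i) ≤ k * (2 * J') := by gcongr; omega
        _ = 2 * (k * J') := by ring
    have hkJ : k ∣ J := Dvd.intro _ rfl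
    have hkua : k ∣ ua := Dvd.intro _ rfl
    have hkub : k ∣ ub := Dvd.intro _ rfl
    have herr : (4 : ℝ) ^ (k * l') * 9 ^ J * δ' ≤ δ / 2 := by
      have e1 : (4 : ℝ) ^ (k * l') ≤ 4 ^ (k * L) := by
        gcongr
        norm_num
      calc (4 : ℝ) ^ (k * l') * 9 ^ J * δ' ≤ 4 ^ (k * L) * 9 ^ J * δ' := by gcongr
        _ = δ / 2 := by rw [hδ']; field_simp
    have hlast : ‖4 ^ (l + J + k * l') • v (f 0 + ua) - 4 ^ (l + J + k * l') • v (f 0 + ub)
        - ((1 / q : ℝ) : T)‖ ≤ δ / 2 := by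
      have e1 : ∀ n, 4 ^ (l + J + k * l') • v n = 4 ^ (k * l') • w n := by
        intro n
        simp only [hw]
        rw [← mul_nsmul', ← pow_add]
        congr 2
        ring
      rw [e1, e1, ← nsmul_sub, ← hDuv, hDs', nsmul_coe]
      have e2 : ((((4 ^ (k * l') : ℕ) : ℝ) * ((2 / 3) ^ s * t₁ + 2 ^ s * β / 3 ^ s) : ℝ) : T)
          - ((1 / q : ℝ) : T) = ((4 ^ (k * l') * ((2 / 3) ^ s * t₁) : ℝ) : T) +
          (((4 ^ (k * l') * 2 ^ s * β / 3 ^ s : ℝ) : T) - ((1 / q : ℝ) : T)) := by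
        rw [← add_sub_assoc, ← AddCircle.coe_add]
        congr 2
        push_cast
        ring
      rw [e2]
      refine (norm_add_le _ _).trans ?_
      have e3 : ‖((4 ^ (k * l') * ((2 / 3) ^ s * t₁) : ℝ) : T)‖ ≤ δ / 4 := by
        refine (norm_coe_le _).trans ?_
        rw [abs_mul, abs_mul, abs_of_pos (by positivity : (0 : ℝ) < 4 ^ (k * l')),
          abs_of_pos (by positivity : (0 : ℝ) < (2 / 3) ^ s)]
        calc (4 : ℝ) ^ (k * l') * ((2 / 3) ^ s * |t₁|) ≤ 4 ^ (k * L) * (1 * κ₀) := by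
              gcongr
              · norm_num
              · exact pow_le_one₀ (by norm_num) (by norm_num)
          _ = δ / 4 := by rw [hκ₀]; field_simp
      linarith [hi]
    refine ⟨fun s => if s ≤ j then f s + ub else f j + ua, ?_, ?_⟩
    · intro s hs'
      simp only
      split_ifs with h
      · have := hf1 s h
        omega
      · have := hf1 j le_rfl
        omega
    · intro s hs'
      simp only [Nat.zero_le, if_true]
      split_ifs with h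
      · refine (transport_rel hq h2 h3 hv hkJ hkub hub2 (hf2 s h)).trans ?_
        linarith
      · obtain rfl : s = j + 1 := by omega
        have e1 := (transport_rel hq h2 h3 hv (l' := l') hkJ hkua hua2 (hf2 j le_rfl)).trans herr
        have e2 : 4 ^ (l + J + k * l') • v (f j + ua) - 4 ^ (l + J + k * l') • v (f 0 + ub)
            - (j + 1) • ((1 / q : ℝ) : T) =
            (4 ^ (l + J + k * l') • v (f j + ua) - 4 ^ (l + J + k * l') • v (f 0 + ua)
              - j • ((1 / q : ℝ) : T)) +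
            (4 ^ (l + J + k * l') • v (f 0 + ua) - 4 ^ (l + J + k * l') • v (f 0 + ub)
              - ((1 / q : ℝ) : T)) := by
          rw [add_nsmul, one_nsmul]
          abel
        rw [e2]
        refine (norm_add_le _ _).trans ?_
        linarith

/-! ### Covering lemmas -/

/-- Unions of intervals of length at least `R`. -/
def Thick (R : ℕ) (Z : Set ℕ) : Prop :=
  ∀ z ∈ Z, ∃ a, a ≤ z ∧ z < a + R ∧ ∀ y, a ≤ y → y < a + R → y ∈ Z

lemma greedy_aux {R : ℕ} (hR : 0 < R) (S G : ℕ → Prop) {η : ℝ} (hη : 0 ≤ η) (Λ : ℕ)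
    (h : ∀ μ < Λ, S μ → (((range R).filter (fun l' => ¬ G (μ + l'))).card : ℝ) ≤ η * R) :
    ∀ d st : ℕ, Λ - st = d → ∃ Z : Set ℕ, Thick R Z ∧ (∀ z ∈ Z, st ≤ z) ∧
      (∀ μ < Λ, st ≤ μ → S μ → μ ∈ Z) ∧
      (((range Λ).filter (fun l => l ∈ Z ∧ ¬ G l)).card : ℝ) ≤ η * ((Λ - st : ℕ) + R) ∧
      (Λ ≤ st → Z = ∅) := by
  intro d
  induction d using Nat.strong_induction_on with
  | _ d ih =>
    intro st hst
    by_cases hex : ∃ μ, μ < Λ ∧ st ≤ μ ∧ S μ
    · classical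
      let a := Nat.find hex
      obtain ⟨ha1, ha2, ha3⟩ : a < Λ ∧ st ≤ a ∧ S a := Nat.find_spec hex
      have hamin : ∀ μ, μ < Λ → st ≤ μ → S μ → a ≤ μ := fun μ h1 h2 h3 =>
        Nat.find_min' hex ⟨h1, h2, h3⟩
      obtain ⟨Z', hZt, hZs, hZc, hZb, hZe⟩ := ih (Λ - (a + R)) (by omega) (a + R) rfl
      obtain ⟨Z, hZdef⟩ : ∃ Z : Set ℕ, ∀ z, z ∈ Z ↔ ((a ≤ z ∧ z < a + R) ∨ z ∈ Z') :=
        ⟨{z | (a ≤ z ∧ z < a + R) ∨ z ∈ Z'}, fun z => Iff.rfl⟩
      refine ⟨Z, ?_, ?_, ?_, ?_, ?_⟩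
      · intro z hz
        rcases (hZdef z).1 hz with ⟨hz1, hz2⟩ | hz
        · exact ⟨a, hz1, hz2, fun y h1 h2 => (hZdef y).2 (Or.inl ⟨h1, h2⟩)⟩
        · obtain ⟨b, hb1, hb2, hb3⟩ := hZt z hz
          exact ⟨b, hb1, hb2, fun y h1 h2 => (hZdef y).2 (Or.inr (hb3 y h1 h2))⟩
      · intro z hz
        rcases (hZdef z).1 hz with ⟨hz1, hz2⟩ | hz
        · omega
        · have := hZs z hz; omega
      · intro μ h1 h2 h3
        rw [hZdef]
        by_cases hμ : μ < a + R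
        · exact Or.inl ⟨hamin μ h1 h2 h3, hμ⟩
        · exact Or.inr (hZc μ h1 (by omega) h3)
      · have hsub : (range Λ).filter (fun l => l ∈ Z ∧ ¬ G l) ⊆
            ((range R).filter (fun l' => ¬ G (a + l'))).image (fun l' => a + l') ∪
            (range Λ).filter (fun l => l ∈ Z' ∧ ¬ G l) := by
          intro l hl
          simp only [mem_filter, mem_range, hZdef] at hl
          obtain ⟨hl1, hl2 | hl2, hl3⟩ := hl
          · refine mem_union_left _ ?_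
            rw [mem_image]
            refine ⟨l - a, ?_, by omega⟩
            rw [mem_filter, mem_range]
            refine ⟨by omega, ?_⟩
            rw [Nat.add_sub_cancel' hl2.1]
            exact hl3
          · refine mem_union_right _ ?_
            rw [mem_filter, mem_range]
            exact ⟨hl1, hl2, hl3⟩
        have hc := (card_le_card hsub).trans (card_union_le _ _)
        have hc2 : (((range Λ).filter (fun l => l ∈ Z ∧ ¬ G l)).card : ℝ) ≤ ((range R).filter (fun l' => ¬ G (a + l'))).card +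
            ((range Λ).filter (fun l => l ∈ Z' ∧ ¬ G l)).card := by
          have h1 := card_image_le (s := (range R).filter (fun l' => ¬ G (a + l')))
            (f := fun l' => a + l')
          exact_mod_cast hc.trans (Nat.add_le_add_right h1 _)
        have hA := h a ha1 ha3
        by_cases hΛ : Λ ≤ a + R
        · have hZ0 := hZe hΛ
          have h0 : ((range Λ).filter (fun l => l ∈ Z' ∧ ¬ G l)).card = 0 := by
            rw [card_eq_zero, filter_eq_empty_iff]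
            intro x _ hx
            rw [hZ0] at hx
            exact hx.1
          rw [h0] at hc2
          have : (0 : ℝ) ≤ η * ((Λ - st : ℕ) : ℝ) := by positivity
          push_cast at hc2
          nlinarith
        · push Not at hΛ
          have h2 : ((Λ - (a + R) : ℕ) : ℝ) + R + R ≤ ((Λ - st : ℕ) : ℝ) + R := by
            have : Λ - (a + R) + R + R ≤ Λ - st + R := by omega
            exact_mod_cast this
          have h3 : η * (((Λ - (a + R) : ℕ) : ℝ) + R + R) ≤ η * (((Λ - st : ℕ) : ℝ) + R) :=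
            mul_le_mul_of_nonneg_left h2 hη
          nlinarith
      · intro hle; omega
    · push Not at hex
      obtain ⟨Z, hZdef⟩ : ∃ Z : Set ℕ, Z = ∅ := ⟨∅, rfl⟩
      have hno : ∀ z, z ∉ Z := fun z hz => by rw [hZdef] at hz; exact hz
      refine ⟨Z, ?_, ?_, ?_, ?_, fun _ => hZdef⟩
      · intro z hz; exact absurd hz (hno z)
      · intro z hz; exact absurd hz (hno z)
      · intro μ h1 h2 h3; exact absurd h3 (hex μ h1 h2)
      · have : ((range Λ).filter (fun l => l ∈ Z ∧ ¬ G l)).card = 0 := by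
          rw [card_eq_zero, filter_eq_empty_iff]
          intro x _ hx
          exact hno x hx.1
        rw [this]
        push_cast
        positivity

/-- T6a. Greedy covering by intervals. -/
lemma greedy {R : ℕ} (hR : 0 < R) (S G : ℕ → Prop) {η : ℝ} (hη : 0 ≤ η) (Λ : ℕ)
    (h : ∀ μ < Λ, S μ → (((range R).filter (fun l' => ¬ G (μ + l'))).card : ℝ) ≤ η * R) :
    ∃ Z : Set ℕ, Thick R Z ∧ (∀ μ < Λ, S μ → μ ∈ Z) ∧
      (((range Λ).filter (fun l => l ∈ Z ∧ ¬ G l)).card : ℝ) ≤ η * (Λ + R) := by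
  obtain ⟨Z, h1, _, h3, h4, _⟩ := greedy_aux hR S G hη Λ h _ 0 rfl
  refine ⟨Z, h1, fun μ hμ => h3 μ hμ (Nat.zero_le _), ?_⟩
  simpa using h4

lemma card_split {k : ℕ} (hk : 0 < k) (Λ : ℕ) (P : ℕ → Prop) [DecidablePred P] :
    ((range Λ).filter P).card = ∑ ρ ∈ range k,
      ((range ((Λ + k - 1 - ρ) / k)).filter (fun m => P (ρ + k * m))).card := by
  have hmaps : ∀ l ∈ (range Λ).filter P, l % k ∈ range k := fun l _ =>
    mem_range.2 (Nat.mod_lt _ hk)
  rw [card_eq_sum_card_fiberwise hmaps]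
  refine sum_congr rfl fun ρ hρ => ?_
  rw [mem_range] at hρ
  have key : ∀ m, m < (Λ + k - 1 - ρ) / k ↔ ρ + k * m < Λ := by
    intro m
    rw [Nat.lt_iff_add_one_le, Nat.le_div_iff_mul_le hk, Nat.add_mul, mul_comm k m]
    omega
  symm
  refine card_bij (fun m _ => ρ + k * m) ?_ ?_ ?_
  · intro m hm
    rw [mem_filter, mem_range, key] at hm
    rw [mem_filter, mem_filter, mem_range]
    refine ⟨hm, ?_⟩
    rw [Nat.add_mul_mod_self_left, Nat.mod_eq_of_lt hρ]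
  · intro m _ m' _ hmm
    have : k * m = k * m' := by simpa using hmm
    exact Nat.eq_of_mul_eq_mul_left hk this
  · intro l hl
    rw [mem_filter, mem_filter, mem_range] at hl
    obtain ⟨⟨hl1, hl2⟩, hl3⟩ := hl
    have hdecomp : ρ + k * (l / k) = l := by
      rw [← hl3]; exact Nat.mod_add_div l k
    refine ⟨l / k, ?_, hdecomp⟩
    rw [mem_filter, mem_range, key, hdecomp]
    exact ⟨hl1, hl2⟩

/-- T6b. Greedy covering by arithmetic progressions with difference `k`. -/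
lemma greedy_prog {k L : ℕ} (hk : 0 < k) (hL : 0 < L) (F G : ℕ → Prop) {η : ℝ} (hη : 0 ≤ η) (Λ : ℕ)
    (h : ∀ μ < Λ, F μ → (((range L).filter (fun l' => ¬ G (μ + k * l'))).card : ℝ) ≤ η * L) :
    (((range Λ).filter (fun l => F l ∧ ¬ G l)).card : ℝ) ≤ η * (Λ + k * L) := by
  rw [card_split hk Λ (fun l => F l ∧ ¬ G l)]
  have hΛ : (Λ : ℝ) = ∑ ρ ∈ range k, (((Λ + k - 1 - ρ) / k : ℕ) : ℝ) := by
    have := card_split hk Λ (fun _ => True)
    simp only [filter_true, card_range] at this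
    exact_mod_cast this
  have hone : ∀ ρ ∈ range k, (((range ((Λ + k - 1 - ρ) / k)).filter
      (fun m => F (ρ + k * m) ∧ ¬ G (ρ + k * m))).card : ℝ) ≤
      η * ((((Λ + k - 1 - ρ) / k : ℕ) : ℝ) + L) := by
    intro ρ hρ
    rw [mem_range] at hρ
    have key : ∀ m, m < (Λ + k - 1 - ρ) / k ↔ ρ + k * m < Λ := by
      intro m
      rw [Nat.lt_iff_add_one_le, Nat.le_div_iff_mul_le hk, Nat.add_mul, mul_comm k m]
      omega
    obtain ⟨Z, _, hZ2, hZ3⟩ := greedy hL (fun m => F (ρ + k * m)) (fun m => G (ρ + k * m)) hη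
      ((Λ + k - 1 - ρ) / k) (by
        intro μ hμ hF
        have := h (ρ + k * μ) ((key μ).1 hμ) hF
        refine le_trans (le_of_eq ?_) this
        congr 2
        ext l'
        simp only [mem_filter, mem_range, Nat.mul_add, Nat.add_assoc])
    refine le_trans ?_ hZ3
    have : (range ((Λ + k - 1 - ρ) / k)).filter (fun m => F (ρ + k * m) ∧ ¬ G (ρ + k * m)) ⊆
        (range ((Λ + k - 1 - ρ) / k)).filter (fun m => m ∈ Z ∧ ¬ G (ρ + k * m)) := by
      intro m hm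
      rw [mem_filter, mem_range] at hm ⊢
      exact ⟨hm.1, hZ2 m hm.1 hm.2.1, hm.2.2⟩
    exact_mod_cast card_le_card this
  push_cast
  calc ∑ ρ ∈ range k, (((range ((Λ + k - 1 - ρ) / k)).filter
      (fun m => F (ρ + k * m) ∧ ¬ G (ρ + k * m))).card : ℝ)
      ≤ ∑ ρ ∈ range k, η * ((((Λ + k - 1 - ρ) / k : ℕ) : ℝ) + L) := sum_le_sum hone
    _ = η * (Λ + k * L) := by
      rw [← mul_sum, sum_add_distrib, ← hΛ, sum_const, card_range, nsmul_eq_mul]

/-- T6c. Shifting a thick set. -/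
lemma thick_shift {R : ℕ} (hR : 0 < R) {Z : Set ℕ} (hZ : Thick R Z) (J Λ : ℕ) :
    (((range Λ).filter (fun l => l ∉ Z ∧ J ≤ l ∧ l - J ∈ Z)).card : ℝ) ≤ J * (Λ / R + 1) := by
  -- right ends
  set E : Finset ℕ := (range Λ).filter (fun e => e ∈ Z ∧ e + 1 ∉ Z) with hE
  have hend : ∀ e ∈ E, R ≤ e + 1 ∧ ∀ y, e + 1 - R ≤ y → y ≤ e → y ∈ Z := by
    intro e he
    rw [hE, mem_filter] at he
    obtain ⟨a, ha1, ha2, ha3⟩ := hZ e he.2.1
    have h1 : a + R = e + 1 := by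
      by_contra hne
      exact he.2.2 (ha3 (e + 1) (by omega) (by omega))
    exact ⟨by omega, fun y h2 h3 => ha3 y (by omega) (by omega)⟩
  have hspace : ∀ e ∈ E, ∀ e' ∈ E, e < e' → e + R < e' := by
    intro e he e' he' hlt
    obtain ⟨h1, h2⟩ := hend e' he'
    rw [hE, mem_filter] at he
    by_contra hcon
    exact he.2.2 (h2 (e + 1) (by omega) (by omega))
  have hcardE : (E.card : ℝ) ≤ Λ / R + 1 := by
    have hinj : Set.InjOn (fun e => e / R) (E : Set ℕ) := by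
      intro e he e' he' hee
      by_contra hne
      rcases Nat.lt_or_gt_of_ne hne with hlt | hlt
      · have := hspace e he e' he' hlt
        have h3 : e / R + 1 ≤ e' / R := by
          rw [← Nat.add_div_right e hR]
          exact Nat.div_le_div_right this.le
        simp only at hee
        omega
      · have := hspace e' he' e he hlt
        have h3 : e' / R + 1 ≤ e / R := by
          rw [← Nat.add_div_right e' hR]
          exact Nat.div_le_div_right this.le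
        simp only at hee
        omega
    have hmap : Set.MapsTo (fun e => e / R) (E : Set ℕ) (range (Λ / R + 1) : Finset ℕ) := by
      intro e he
      have he' : e ∈ E := he
      rw [hE, mem_filter, mem_range] at he'
      simp only [coe_range, Set.mem_Iio]
      exact Nat.lt_succ_of_le (Nat.div_le_div_right he'.1.le)
    have := card_le_card_of_injOn _ hmap hinj
    rw [card_range] at this
    have h4 : ((Λ / R : ℕ) : ℝ) ≤ (Λ : ℝ) / R := Nat.cast_div_le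
    have h5 : (E.card : ℝ) ≤ ((Λ / R : ℕ) : ℝ) + 1 := by exact_mod_cast this
    linarith
  have hsub : (range Λ).filter (fun l => l ∉ Z ∧ J ≤ l ∧ l - J ∈ Z) ⊆
      E.biUnion (fun e => Finset.Ioc e (e + J)) := by
    intro l hl
    rw [mem_filter, mem_range] at hl
    obtain ⟨hl1, hl2, hl3, hl4⟩ := hl
    classical
    have hex : ∃ i, l - J + i ∉ Z := ⟨J, by rwa [Nat.sub_add_cancel hl3]⟩
    let i := Nat.find hex
    have hi1 : l - J + i ∉ Z := Nat.find_spec hex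
    have hi2 : ∀ j < i, l - J + j ∈ Z := fun j hj => by
      have := Nat.find_min hex hj
      simpa using this
    have hi3 : i ≤ J := Nat.find_min' hex (by rwa [Nat.sub_add_cancel hl3])
    have hi4 : 0 < i := by
      rcases Nat.eq_zero_or_pos i with h0 | h0
      · rw [h0] at hi1
        exact absurd hl4 hi1
      · exact h0
    rw [mem_biUnion]
    refine ⟨l - J + (i - 1), ?_, ?_⟩
    · rw [hE, mem_filter, mem_range]
      refine ⟨by omega, hi2 _ (by omega), ?_⟩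
      have : l - J + (i - 1) + 1 = l - J + i := by omega
      rwa [this]
    · rw [Finset.mem_Ioc]
      omega
  have hcard : ((range Λ).filter (fun l => l ∉ Z ∧ J ≤ l ∧ l - J ∈ Z)).card ≤ E.card * J := by
    refine (card_le_card hsub).trans ?_
    refine card_biUnion_le_card_mul _ _ _ fun e _ => ?_
    simp
  have hcard' : (((range Λ).filter (fun l => l ∉ Z ∧ J ≤ l ∧ l - J ∈ Z)).card : ℝ) ≤
      E.card * J := by exact_mod_cast hcard
  have hJ : (0 : ℝ) ≤ J := Nat.cast_nonneg _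
  nlinarith

/-! ### The induction -/

lemma gd_mono {ε : ℝ} {v : ℕ → T} {E U U' l : ℕ} (h : U ≤ U') (hg : Gd ε v E U l) :
    Gd ε v E U' l := fun τ => by
  obtain ⟨n, h1, h2, h3⟩ := hg τ
  exact ⟨n, h1, by omega, h3⟩

lemma bj_mono {q j : ℕ} {δ : ℝ} {v : ℕ → T} {M r r' l : ℕ} (h : r ≤ r')
    (hb : Bj q j δ v M r l) : Bj q j δ v M r' l := by
  obtain ⟨f, h1, h2⟩ := hb
  exact ⟨f, fun s hs => by have := h1 s hs; omega, h2⟩

lemma ct_mono {Q : ℕ} {κ κ' : ℝ} {v : ℕ → T} {M r r' l : ℕ} (h : r ≤ r') (hκ : κ ≤ κ')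
    (hc : Ct Q κ v M r l) : Ct Q κ' v M r' l := by
  obtain ⟨n, h1, h2, ζ, h3, h4⟩ := hc
  exact ⟨n, by omega, by omega, ζ, h3, h4.trans hκ⟩

lemma esc_mono {C C' : ℕ} {v : ℕ → T} {E M l : ℕ} (h : C' ≤ C) (he : Esc C v E M l) :
    Esc C' v E M l := by
  obtain ⟨h1, h2⟩ := he
  refine ⟨by omega, fun Q c hQ1 hQ hc => ?_⟩
  refine lt_of_le_of_lt ?_ (h2 Q c hQ1 (by omega) (by omega))
  have e1 : (C' : ℝ) ≤ C := by exact_mod_cast h
  have e2 : (2 / 3 : ℝ) ^ (M - E - 2 * C') ≤ (2 / 3) ^ (M - E - 2 * C) :=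
    pow_le_pow_of_le_one (by norm_num) (by norm_num) (by omega)
  have e3 : (0 : ℝ) ≤ (2 / 3 : ℝ) ^ (M - E - 2 * C') := by positivity
  gcongr

lemma thick_mono {R R' : ℕ} {Z : Set ℕ} (hR' : 0 < R') (h : R' ≤ R) (hZ : Thick R Z) :
    Thick R' Z := by
  intro z hz
  obtain ⟨a, h1, h2, h3⟩ := hZ z hz
  refine ⟨max a (z + 1 - R'), by omega, by omega, fun y hy1 hy2 => h3 y (by omega) (by omega)⟩

lemma thick_union {R : ℕ} {Z Z' : Set ℕ} (h : Thick R Z) (h' : Thick R Z') : Thick R (Z ∪ Z') := by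
  rintro z (hz | hz)
  · obtain ⟨a, h1, h2, h3⟩ := h z hz
    exact ⟨a, h1, h2, fun y hy1 hy2 => Or.inl (h3 y hy1 hy2)⟩
  · obtain ⟨a, h1, h2, h3⟩ := h' z hz
    exact ⟨a, h1, h2, fun y hy1 hy2 => Or.inr (h3 y hy1 hy2)⟩

/-- Pigeonhole for a decreasing chain of sets. -/
lemma pigeon_chain {Λ H : ℕ} (A : ℕ → Finset ℕ) (hA : ∀ h, A (h + 1) ⊆ A h) (hA0 : A 0 ⊆ range Λ)
    {η : ℝ} (hη : 0 < η) (hH : 1 / η ≤ H) : ∃ h < H, ((A h \ A (h + 1)).card : ℝ) ≤ η * Λ := by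
  by_contra hcon
  push Not at hcon
  have hH0 : 0 < H := by
    have : (0 : ℝ) < H := lt_of_lt_of_le (by positivity) hH
    exact_mod_cast this
  have h1 : ∀ h, ((A h \ A (h + 1)).card : ℝ) = (A h).card - (A (h + 1)).card := by
    intro h
    have := Finset.card_sdiff_add_card_eq_card (hA h)
    rw [eq_sub_iff_add_eq]
    exact_mod_cast this
  have h2 : ∑ h ∈ range H, (η * Λ : ℝ) < ∑ h ∈ range H, ((A h \ A (h + 1)).card : ℝ) :=
    Finset.sum_lt_sum_of_nonempty ⟨0, by simpa using hH0⟩ (fun h hh => hcon h (by simpa using hh))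
  rw [Finset.sum_congr rfl (fun h _ => h1 h), Finset.sum_range_sub'] at h2
  rw [Finset.sum_const, Finset.card_range, nsmul_eq_mul] at h2
  have h3 : ((A 0).card : ℝ) ≤ Λ := by
    have := Finset.card_le_card hA0
    rw [Finset.card_range] at this
    exact_mod_cast this
  have h4 : (0 : ℝ) ≤ (A H).card := Nat.cast_nonneg _
  have h5 : (1 : ℝ) ≤ H * η := by rwa [div_le_iff₀ hη] at hH
  have h6 : (0 : ℝ) ≤ Λ := Nat.cast_nonneg _
  nlinarith

/-- T7. The induction on `j`. -/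
lemma induct {q k : ℕ} (hq : 0 < q) (hk : 0 < k) (h2 : 2 ^ k ≡ 1 [MOD q])
    (h3 : 3 ^ k ≡ 1 [MOD q]) {ε : ℝ} (hε : 0 < ε) (j : ℕ) : ∀ δ η : ℝ, 0 < δ → 0 < η → ∀ R₀ : ℕ,
    0 < R₀ → ∃ Λ₀ C : ℕ, ∀ Λ ≥ Λ₀, ∀ v, Seq v → ∀ E M, (∀ l < Λ, Esc C v E M l) →
      ∃ Z : Set ℕ, Thick R₀ Z ∧
        (((range Λ).filter (fun l => l ∈ Z ∧ ¬ Gd ε v E (M + C) l)).card : ℝ) ≤ η * Λ ∧
        (((range Λ).filter (fun l => l ∉ Z ∧ ¬ Bj q j δ v M C l)).card : ℝ) ≤ η * Λ := by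
  induction j with
  | zero =>
    intro δ η hδ hη R₀ hR₀
    have key : ∀ (Λ : ℕ) (p : ℕ → Prop) (i : DecidablePred p), (∀ l, ¬ p l) →
        ((@Finset.filter ℕ p i (range Λ)).card : ℝ) ≤ η * Λ := by
      intro Λ p _ hp
      rw [Finset.filter_false_of_mem (fun l _ => hp l)]
      simp
      positivity
    refine ⟨0, 0, fun Λ _ v hv E M hE => ⟨∅, fun z hz => absurd hz (Set.notMem_empty z), ?_, ?_⟩⟩
    · exact key Λ _ _ (fun l h => Set.notMem_empty l h.1)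
    · refine key Λ _ _ ?_
      rintro l ⟨_, hb⟩
      apply hb
      refine ⟨fun _ => M, fun s _ => ⟨le_rfl, le_rfl⟩, fun s hs => ?_⟩
      obtain rfl : s = 0 := by omega
      simp
      positivity
  | succ j ih =>
    intro δ η hδ hη R₀ hR₀
    set η₁ := η / 10 with hη₁
    have hη₁pos : 0 < η₁ := by positivity
    obtain ⟨L, Q, hL, hQ0, hQ6, hfar⟩ := far hq hk h2 h3 hδ hη₁pos
    choose J δ' hδ' hfar' using fun κ : {κ : ℝ // 0 < κ} => hfar κ.1 κ.2
    set R₁ : {κ : ℝ // 0 < κ} → ℕ := fun κ => R₀ + ⌈(J κ : ℝ) / η₁⌉₊ with hR₁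
    choose R c κ' hRR hRpos hκ'pos hκ'1 hcon using fun κ : {κ : ℝ // 0 < κ} =>
      contact hQ0 hQ6 hε hη₁pos (R₁ κ)
    choose Λj Cj hih using fun κ : {κ : ℝ // 0 < κ} =>
      ih (δ' κ) η₁ (hδ' κ) hη₁pos (R₁ κ) (by simp only [hR₁]; omega)
    set next : {κ : ℝ // 0 < κ} → {κ : ℝ // 0 < κ} := fun κ =>
      ⟨min κ.1 (κ' κ), lt_min κ.2 (hκ'pos κ)⟩ with hnext
    set κs : ℕ → {κ : ℝ // 0 < κ} := fun h => next^[h] ⟨1, one_pos⟩ with hκs
    have hκs_succ : ∀ h, κs (h + 1) = next (κs h) := fun h => Function.iterate_succ_apply' _ _ _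
    set H := ⌈1 / η₁⌉₊ with hH
    have hHle : 1 / η₁ ≤ H := Nat.le_ceil _
    set ρ := ∑ h ∈ range H, (Cj (κs h) + 2 * J (κs h)) with hρ
    set C := ρ + ∑ h ∈ range H, c (κs h) + Q with hC
    set W := ∑ h ∈ range H, (J (κs h) + R (κs h)) + k * L with hW
    set Λ₀ := ∑ h ∈ range H, Λj (κs h) + ⌈(W : ℝ) / η₁⌉₊ + W with hΛ₀
    refine ⟨Λ₀, C, fun Λ hΛ v hv E M hE => ?_⟩
    -- pigeonhole over the scales
    obtain ⟨h, hhH, hdiff⟩ := pigeon_chain (Λ := Λ) (H := H)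
      (fun h => (range Λ).filter (fun l => Ct Q (κs h).1 v M ρ l))
      (by
        intro h l hl
        rw [Finset.mem_filter] at hl ⊢
        refine ⟨hl.1, ct_mono le_rfl ?_ hl.2⟩
        rw [hκs_succ]
        exact min_le_left _ _)
      (Finset.filter_subset _ _) hη₁pos hHle
    have hhr : h ∈ range H := Finset.mem_range.2 hhH
    set κ := κs h with hκ
    -- bounds
    have b1 : Cj κ + 2 * J κ ≤ ρ := by
      rw [hρ]
      exact Finset.single_le_sum (f := fun h => Cj (κs h) + 2 * J (κs h))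
        (fun _ _ => Nat.zero_le _) hhr
    have b2 : c κ ≤ C := by
      have : c κ ≤ ∑ h ∈ range H, c (κs h) :=
        Finset.single_le_sum (f := fun h => c (κs h)) (fun _ _ => Nat.zero_le _) hhr
      omega
    have b3 : J κ + R κ ≤ W := by
      have : J κ + R κ ≤ ∑ h ∈ range H, (J (κs h) + R (κs h)) :=
        Finset.single_le_sum (f := fun h => J (κs h) + R (κs h)) (fun _ _ => Nat.zero_le _) hhr
      omega
    have b4 : Λj κ ≤ Λ := by
      have : Λj κ ≤ ∑ h ∈ range H, Λj (κs h) :=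
        Finset.single_le_sum (f := fun h => Λj (κs h)) (fun _ _ => Nat.zero_le _) hhr
      omega
    have b5 : W ≤ Λ := by omega
    have b6 : (W : ℝ) ≤ η₁ * Λ := by
      have e1 : (W : ℝ) / η₁ ≤ Λ := by
        refine (Nat.le_ceil _).trans ?_
        have : ⌈(W : ℝ) / η₁⌉₊ ≤ Λ := by omega
        exact_mod_cast this
      rw [div_le_iff₀ hη₁pos] at e1
      linarith
    have b7 : k * L ≤ W := by omega
    have hρC : ρ ≤ C := by omega
    have hQC : Q ≤ C := by omega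
    have hΛ0 : (0 : ℝ) ≤ Λ := Nat.cast_nonneg _
    have hJη : (J κ : ℝ) ≤ η₁ * Λ := by
      have : (J κ : ℝ) ≤ W := by
        have : J κ ≤ W := by omega
        exact_mod_cast this
      linarith
    have hRΛ : (R κ : ℝ) ≤ Λ := by
      have : R κ ≤ Λ := by omega
      exact_mod_cast this
    have hkLΛ : ((k * L : ℕ) : ℝ) ≤ Λ := by
      have : k * L ≤ Λ := by omega
      exact_mod_cast this
    -- the induction hypothesis at the scale κ
    obtain ⟨Zj, hZj1, hZj2, hZj3⟩ := hih κ Λ b4 v hv E M (fun l hl => esc_mono (by omega) (hE l hl))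
    -- greedy covering of the contact positions
    obtain ⟨Zc, hZc1, hZc2, hZc3⟩ := greedy (hRpos κ) (fun l => Ct Q (κs (h + 1)).1 v M ρ l)
      (fun l => Gd ε v E (M + ρ) l) hη₁pos.le Λ (by
        intro μ hμ hμc
        refine hcon κ C hQC b2 v hv E M ρ μ hρC (hE μ hμ) (ct_mono le_rfl ?_ hμc)
        rw [hκs_succ]
        exact min_le_right _ _)
    have hR₁R : R₁ κ ≤ R κ := hRR κ
    have hR₀R₁ : R₀ ≤ R₁ κ := by simp only [hR₁]; omega
    obtain ⟨Z, hZ⟩ : ∃ Z : Set ℕ, Z = Zj ∪ Zc := ⟨_, rfl⟩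
    have hZm : ∀ l, l ∈ Z ↔ l ∈ Zj ∨ l ∈ Zc := fun l => by rw [hZ]; exact Iff.rfl
    refine ⟨Z, hZ ▸ thick_union (thick_mono hR₀ hR₀R₁ hZj1)
      (thick_mono hR₀ (hR₀R₁.trans hR₁R) hZc1), ?_, ?_⟩
    · have hsub : (range Λ).filter (fun l => l ∈ Z ∧ ¬ Gd ε v E (M + C) l) ⊆
          (range Λ).filter (fun l => l ∈ Zj ∧ ¬ Gd ε v E (M + Cj κ) l) ∪
          (range Λ).filter (fun l => l ∈ Zc ∧ ¬ Gd ε v E (M + ρ) l) := by
        intro l hl
        rw [Finset.mem_filter, hZm] at hl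
        rw [Finset.mem_union, Finset.mem_filter, Finset.mem_filter]
        obtain ⟨hl1, hl2 | hl2, hl3⟩ := hl
        · exact Or.inl ⟨hl1, hl2, fun hg => hl3 (gd_mono (by omega) hg)⟩
        · exact Or.inr ⟨hl1, hl2, fun hg => hl3 (gd_mono (by omega) hg)⟩
      have hcard := (Finset.card_le_card hsub).trans (Finset.card_union_le _ _)
      have hcard' : (((range Λ).filter (fun l => l ∈ Z ∧ ¬ Gd ε v E (M + C) l)).card : ℝ) ≤
          ((range Λ).filter (fun l => l ∈ Zj ∧ ¬ Gd ε v E (M + Cj κ) l)).card +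
          ((range Λ).filter (fun l => l ∈ Zc ∧ ¬ Gd ε v E (M + ρ) l)).card := by
        exact_mod_cast hcard
      have e1 : η₁ * R κ ≤ η₁ * Λ := by gcongr
      have e2 : η * Λ = 10 * (η₁ * Λ) := by rw [hη₁]; ring
      have e3 : 0 ≤ η₁ * Λ := by positivity
      nlinarith
    · set A₂ := (range Λ).filter (fun l => l ∉ Zj ∧ J κ ≤ l ∧ l - J κ ∈ Zj) with hA₂
      set A₃ := (range Λ).filter (fun l => l ∉ Zj ∧ ¬ Bj q j (δ' κ) v M (Cj κ) l) with hA₃
      set A₄ := (range Λ).filter (fun l => Ct Q κ.1 v M ρ l) \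
        (range Λ).filter (fun l => Ct Q (κs (h + 1)).1 v M ρ l) with hA₄
      obtain ⟨Fp, hFp⟩ : ∃ Fp : ℕ → Prop, ∀ m, Fp m ↔ (Bj q j (δ' κ) v M (Cj κ) m ∧
        ¬ Ct Q κ.1 v M (Cj κ + 2 * J κ) (m + J κ)) := ⟨_, fun _ => Iff.rfl⟩
      obtain ⟨Gp, hGp⟩ : ∃ Gp : ℕ → Prop, ∀ m, Gp m ↔ Bj q (j + 1) δ v M (Cj κ + 2 * J κ) (m + J κ) :=
        ⟨_, fun _ => Iff.rfl⟩
      set A₅ := (range Λ).filter (fun l => Fp l ∧ ¬ Gp l) with hA₅
      have hsub : (range Λ).filter (fun l => l ∉ Z ∧ ¬ Bj q (j + 1) δ v M C l) ⊆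
          range (J κ) ∪ (A₂ ∪ (A₃.image (· + J κ) ∪ (A₄ ∪ A₅.image (· + J κ)))) := by
        intro l hl
        rw [Finset.mem_filter] at hl
        obtain ⟨hl1, hl2, hl3⟩ := hl
        have hl2' : l ∉ Zj ∧ l ∉ Zc := by
          constructor
          · exact fun h => hl2 ((hZm l).2 (Or.inl h))
          · exact fun h => hl2 ((hZm l).2 (Or.inr h))
        have hlΛ : l < Λ := Finset.mem_range.1 hl1
        simp only [Finset.mem_union]
        by_cases hlJ : l < J κ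
        · exact Or.inl (Finset.mem_range.2 hlJ)
        right
        have hlJ' : J κ ≤ l := by omega
        have hmJ : l - J κ + J κ = l := by omega
        have hmΛ : l - J κ < Λ := by omega
        by_cases hmZ : l - J κ ∈ Zj
        · exact Or.inl (Finset.mem_filter.2 ⟨hl1, hl2'.1, hlJ', hmZ⟩)
        right
        by_cases hmB : Bj q j (δ' κ) v M (Cj κ) (l - J κ)
        swap
        · exact Or.inl (Finset.mem_image.2 ⟨l - J κ,
            Finset.mem_filter.2 ⟨Finset.mem_range.2 hmΛ, hmZ, hmB⟩, hmJ⟩)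
        right
        by_cases hlC : Ct Q κ.1 v M (Cj κ + 2 * J κ) l
        · left
          rw [hA₄, Finset.mem_sdiff, Finset.mem_filter, Finset.mem_filter]
          exact ⟨⟨hl1, ct_mono b1 le_rfl hlC⟩, fun h => hl2'.2 (hZc2 l hlΛ h.2)⟩
        right
        refine Finset.mem_image.2 ⟨l - J κ, Finset.mem_filter.2 ⟨Finset.mem_range.2 hmΛ, ?_, ?_⟩, hmJ⟩
        · rw [hFp, hmJ]
          exact ⟨hmB, hlC⟩
        · intro hg
          apply hl3
          have hg' := (hGp _).1 hg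
          rw [hmJ] at hg'
          exact bj_mono (by omega) hg'
      have c2 : (A₂.card : ℝ) ≤ J κ * (Λ / R₁ κ + 1) := thick_shift (by omega) hZj1 (J κ) Λ
      have c5 : (A₅.card : ℝ) ≤ η₁ * (Λ + k * L) := by
        apply greedy_prog hk hL Fp Gp hη₁pos.le Λ
        intro μ hμ hF
        rw [hFp] at hF
        have := hfar' κ v hv M (Cj κ) j μ hF.2 hF.1
        refine le_trans (le_of_eq ?_) this
        congr 2
        apply Finset.filter_congr
        intro l' _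
        have e : μ + J κ + k * l' = μ + k * l' + J κ := by ring
        rw [hGp, e]
      have hcard : ((range Λ).filter (fun l => l ∉ Z ∧ ¬ Bj q (j + 1) δ v M C l)).card ≤
          J κ + (A₂.card + (A₃.card + (A₄.card + A₅.card))) := by
        refine (Finset.card_le_card hsub).trans ?_
        refine (Finset.card_union_le _ _).trans ?_
        rw [Finset.card_range]
        refine Nat.add_le_add_left ?_ _
        refine (Finset.card_union_le _ _).trans (Nat.add_le_add_left ?_ _)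
        refine (Finset.card_union_le _ _).trans (Nat.add_le_add Finset.card_image_le ?_)
        exact (Finset.card_union_le _ _).trans (Nat.add_le_add_left Finset.card_image_le _)
      have hcard' : (((range Λ).filter
          (fun l => l ∉ Z ∧ ¬ Bj q (j + 1) δ v M C l)).card : ℝ) ≤
          J κ + (A₂.card + (A₃.card + (A₄.card + A₅.card))) := by
        exact_mod_cast hcard
      have e0 : (J κ : ℝ) * (Λ / R₁ κ) ≤ η₁ * Λ := by
        have hR₁pos : (0 : ℝ) < R₁ κ := by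
          have : 0 < R₁ κ := by omega
          exact_mod_cast this
        have e1 : (J κ : ℝ) / η₁ ≤ R₁ κ := by
          refine (Nat.le_ceil _).trans ?_
          have : ⌈(J κ : ℝ) / η₁⌉₊ ≤ R₁ κ := by simp only [hR₁]; omega
          exact_mod_cast this
        rw [div_le_iff₀ hη₁pos] at e1
        rw [← mul_div_assoc, div_le_iff₀ hR₁pos]
        nlinarith
      have e2 : η * Λ = 10 * (η₁ * Λ) := by rw [hη₁]; ring
      have e3 : η₁ * ((k * L : ℕ) : ℝ) ≤ η₁ * Λ := by gcongr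
      push_cast at e3
      have e4 : 0 ≤ η₁ * Λ := by positivity
      have c3 : (A₃.card : ℝ) ≤ η₁ * Λ := hZj3
      have c4 : (A₄.card : ℝ) ≤ η₁ * Λ := hdiff
      nlinarith

/-- T8a. A full progression `x, x + 1/q, ..., x + (q-1)/q` is dense. -/
lemma gd_of_bj {q : ℕ} (hq : 0 < q) {ε δ : ℝ} (hqε : 1 / (q : ℝ) + δ < ε) {v : ℕ → T}
    {E M C l : ℕ} (hE : E + 2 * C ≤ M) (h : Bj q (q - 1) δ v M C l) : Gd ε v E (M + C) l := by
  intro τ
  obtain ⟨f, hf, hf'⟩ := h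
  have hq' : (0 : ℝ) < q := by exact_mod_cast hq
  obtain ⟨r, hr0, hr1, hr⟩ : ∃ r : ℝ, 0 ≤ r ∧ r < 1 ∧ (r : T) = τ - 4 ^ l • v (f 0) := by
    obtain ⟨t, ht⟩ := QuotientAddGroup.mk_surjective (τ - 4 ^ l • v (f 0))
    refine ⟨Int.fract t, Int.fract_nonneg t, Int.fract_lt_one t, ?_⟩
    rw [← ht, Int.fract]
    have : ((t - (⌊t⌋ : ℤ) : ℝ) : T) = (t : T) - ((⌊t⌋ : ℤ) : ℝ) := AddCircle.coe_sub _ _ _
    rw [this, coe_int, sub_zero]
  have hrq0 : 0 ≤ r * q := mul_nonneg hr0 hq'.le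
  have hs1 : (⌊r * q⌋₊ : ℝ) ≤ r * q := Nat.floor_le hrq0
  have hs2 : r * q < ⌊r * q⌋₊ + 1 := Nat.lt_floor_add_one _
  have hs3 : ⌊r * q⌋₊ ≤ q - 1 := by
    have h1 : ⌊r * q⌋₊ < q := by
      rw [Nat.floor_lt hrq0]
      nlinarith
    omega
  refine ⟨f ⌊r * q⌋₊, ?_, (hf _ hs3).2, ?_⟩
  · have := (hf _ hs3).1
    omega
  · have h1 := hf' _ hs3
    have h2 : 4 ^ l • v (f ⌊r * q⌋₊) - τ =
        (4 ^ l • v (f ⌊r * q⌋₊) - 4 ^ l • v (f 0) - ⌊r * q⌋₊ • ((1 / q : ℝ) : T)) +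
          (((⌊r * q⌋₊ : ℝ) * (1 / q) - r : ℝ) : T) := by
      rw [AddCircle.coe_sub, hr, nsmul_coe]
      abel
    have h3 : |(⌊r * q⌋₊ : ℝ) * (1 / q) - r| ≤ 1 / q := by
      rw [abs_le]
      have e1 : r = r * q * (1 / q) := by field_simp
      have e2 : (0 : ℝ) ≤ 1 / q := by positivity
      constructor
      · have := mul_le_mul_of_nonneg_right hs2.le e2
        rw [← e1] at this
        linarith
      · have := mul_le_mul_of_nonneg_right hs1 e2
        rw [← e1] at this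
        linarith
    rw [h2]
    calc _ ≤ δ + 1 / q := (norm_add_le _ _).trans (add_le_add h1 ((norm_coe_le _).trans h3))
      _ < ε := by linarith

/-- T8b. The core theorem: most positions are good. -/
theorem core {ε θ : ℝ} (hε : 0 < ε) (hθ : 0 < θ) : ∃ Λ₀ C : ℕ, ∀ Λ ≥ Λ₀, ∀ v, Seq v → ∀ E M,
    (∀ l < Λ, Esc C v E M l) →
    (((range Λ).filter (fun l => ¬ Gd ε v E (M + C) l)).card : ℝ) ≤ θ * Λ := by
  obtain ⟨t, ht⟩ : ∃ t : ℕ, 2 / ε < 5 ^ t := by
    obtain ⟨t, ht⟩ := pow_unbounded_of_one_lt (2 / ε) (by norm_num : (1 : ℝ) < 5)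
    exact ⟨t, ht⟩
  have hq : 0 < 5 ^ t := by positivity
  have hk : 0 < Nat.totient (5 ^ t) := Nat.totient_pos.2 hq
  have h2 : 2 ^ Nat.totient (5 ^ t) ≡ 1 [MOD 5 ^ t] :=
    Nat.ModEq.pow_totient (Nat.Coprime.pow_right _ (by norm_num))
  have h3 : 3 ^ Nat.totient (5 ^ t) ≡ 1 [MOD 5 ^ t] :=
    Nat.ModEq.pow_totient (Nat.Coprime.pow_right _ (by norm_num))
  obtain ⟨Λ₀, C, hC⟩ := induct hq hk h2 h3 hε (5 ^ t - 1) (ε / 4) (θ / 2) (by positivity)
    (by positivity) 1 one_pos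
  refine ⟨Λ₀, C, fun Λ hΛ v hv E M hEsc => ?_⟩
  obtain ⟨Z, -, hZ1, hZ2⟩ := hC Λ hΛ v hv E M hEsc
  have hsub : (range Λ).filter (fun l => ¬ Gd ε v E (M + C) l) ⊆
      (range Λ).filter (fun l => l ∈ Z ∧ ¬ Gd ε v E (M + C) l) ∪
      (range Λ).filter (fun l => l ∉ Z ∧ ¬ Bj (5 ^ t) (5 ^ t - 1) (ε / 4) v M C l) := by
    intro l hl
    rw [mem_filter] at hl
    rw [mem_union, mem_filter, mem_filter]
    by_cases hlZ : l ∈ Z
    · exact Or.inl ⟨hl.1, hlZ, hl.2⟩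
    · right
      refine ⟨hl.1, hlZ, fun hB => hl.2 ?_⟩
      refine gd_of_bj hq ?_ (hEsc l (mem_range.1 hl.1)).1 hB
      have h5 : (1 : ℝ) / ((5 ^ t : ℕ) : ℝ) < ε / 2 := by
        push_cast
        rw [div_lt_iff₀ (by positivity)]
        rw [div_lt_iff₀ hε] at ht
        nlinarith
      linarith
  calc (((range Λ).filter (fun l => ¬ Gd ε v E (M + C) l)).card : ℝ)
      ≤ (((range Λ).filter (fun l => l ∈ Z ∧ ¬ Gd ε v E (M + C) l) ∪
      (range Λ).filter (fun l => l ∉ Z ∧ ¬ Bj (5 ^ t) (5 ^ t - 1) (ε / 4) v M C l)).card : ℝ) := by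
        exact_mod_cast card_le_card hsub
    _ ≤ (((range Λ).filter (fun l => l ∈ Z ∧ ¬ Gd ε v E (M + C) l)).card : ℝ) +
      (((range Λ).filter (fun l => l ∉ Z ∧ ¬ Bj (5 ^ t) (5 ^ t - 1) (ε / 4) v M C l)).card : ℝ) := by
        exact_mod_cast card_union_le _ _
    _ ≤ θ / 2 * Λ + θ / 2 * Λ := add_le_add hZ1 hZ2
    _ = θ * Λ := by ring

end Pool.Agent.Lib.MP_cc0c1a_nt
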