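import Mathlib

/-!
# MP_cc0c1a_nt, module Modif: exceptional sets for progressions `z + a w`

The counting core of the theorem on local modifications of finite configurations.
`H = 3 ^ h`, `G = 2 ^ h`, `D = 6 Λ H ^ K`; `Av` is the set of residues `t` modulo `D` such that no
`G ^ i H ^ (K - i) t / D` lies in the middle third of the arc `[W / Λ, (W + 1) / Λ)`.
-/

set_option autoImplicit false

open Finset

namespace Pool.Agent.Lib.MP_cc0c1a_nt.Modif

/-- no `G^i H^(K-i) t / (6 Λ H^K)`, `i ≤ K`, lies in the middle third of `[W/Λ, (W+1)/Λ)` modulo one -/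
def Av (G H Λ W K t : ℕ) : Prop :=
  ∀ i ≤ K, ¬ (2 * (3 * W + 1) * H ^ K ≤ (G ^ i * H ^ (K - i) * t) % (6 * Λ * H ^ K) ∧
    (G ^ i * H ^ (K - i) * t) % (6 * Λ * H ^ K) < 2 * (3 * W + 2) * H ^ K)

/-- one of the `H` lifts of a residue is in the arc -/
theorem exists_lift {G H Λ W K : ℕ} (hH : 3 * Λ ≤ H) (hW : W < Λ) (hc : G.Coprime H) (v : ℕ) :
    ∃ m < H, 2 * (3 * W + 1) * H ^ (K + 1) ≤
        (v + 6 * Λ * H ^ K * (G ^ (K + 1) * m)) % (6 * Λ * H ^ (K + 1)) ∧
      (v + 6 * Λ * H ^ K * (G ^ (K + 1) * m)) % (6 * Λ * H ^ (K + 1)) <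
        2 * (3 * W + 2) * H ^ (K + 1) := by
  have hH0 : 0 < H := by omega
  have hΛ0 : 0 < Λ := by omega
  have hHK : 0 < H ^ K := pow_pos hH0 K
  set D := 6 * Λ * H ^ K with hD
  have hD0 : 0 < D := by positivity
  have hDH : 6 * Λ * H ^ (K + 1) = D * H := by rw [hD, pow_succ]; ring
  set A := 2 * (3 * W + 1) * H ^ (K + 1) with hA
  have hAB : A + D ≤ 2 * (3 * W + 2) * H ^ (K + 1) := by
    have h1 : D ≤ 2 * H ^ (K + 1) := by
      rw [hD, pow_succ]
      calc 6 * Λ * H ^ K = 2 * H ^ K * (3 * Λ) := by ring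
        _ ≤ 2 * H ^ K * H := Nat.mul_le_mul_left _ hH
        _ = 2 * (H ^ K * H) := by ring
    calc A + D ≤ A + 2 * H ^ (K + 1) := by omega
      _ = 2 * (3 * W + 2) * H ^ (K + 1) := by rw [hA]; ring
  have hB : 2 * (3 * W + 2) * H ^ (K + 1) ≤ D * H := by
    rw [← hDH]
    apply Nat.mul_le_mul_right
    omega
  -- the representative of `v` modulo `D` in `[A, A + D)`
  set τ := A + (v + D * A - A) % D with hτ
  have hτ1 : A ≤ τ := by omega
  have hτ2 : τ < A + D := by
    have := Nat.mod_lt (v + D * A - A) hD0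
    omega
  have hDA : A ≤ D * A := Nat.le_mul_of_pos_left A hD0
  have hτ3 : τ ≡ v [MOD D] := by
    have h1 : (v + D * A - A) % D ≡ v + D * A - A [MOD D] := Nat.mod_modEq _ _
    have h2 : τ ≡ A + (v + D * A - A) [MOD D] := Nat.ModEq.add_left A h1
    have h3 : A + (v + D * A - A) = v + D * A := by omega
    rw [h3] at h2
    refine h2.trans ?_
    have h4 : D * A ≡ 0 [MOD D] := (Nat.modEq_zero_iff_dvd.2 ⟨A, rfl⟩)
    simpa using Nat.ModEq.add_left v h4
  -- `v + D k = τ + D H v`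
  obtain ⟨k, hk⟩ : ∃ k : ℕ, v + D * k = τ + D * H * v := by
    have h1 : v ≤ τ + D * H * v := by
      have : v ≤ D * H * v := Nat.le_mul_of_pos_left v (by positivity)
      omega
    have h2 : v ≡ τ + D * H * v [MOD D] := by
      have h4 : D * H * v ≡ 0 [MOD D] :=
        (Nat.modEq_zero_iff_dvd.2 ⟨H * v, by ring⟩)
      have := (Nat.ModEq.add_left τ h4)
      rw [add_zero] at this
      exact (this.trans hτ3).symm
    obtain ⟨k, hk⟩ := (Nat.modEq_iff_dvd' h1).1 h2
    exact ⟨k, by omega⟩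
  haveI : NeZero H := ⟨hH0.ne'⟩
  have hcop : (G ^ (K + 1)).Coprime H := Nat.Coprime.pow_left _ hc
  set m := ((k : ZMod H) * ((ZMod.unitOfCoprime (G ^ (K + 1)) hcop)⁻¹ : (ZMod H)ˣ)).val with hm
  have hmk : G ^ (K + 1) * m ≡ k [MOD H] := by
    rw [← ZMod.natCast_eq_natCast_iff]
    push_cast
    rw [hm, ZMod.natCast_zmod_val]
    have h1 : ((G : ZMod H) ^ (K + 1)) = ((ZMod.unitOfCoprime (G ^ (K + 1)) hcop : (ZMod H)ˣ) : ZMod H) := by
      rw [ZMod.coe_unitOfCoprime]
      push_cast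
      rfl
    rw [h1, mul_comm (k : ZMod H), ← mul_assoc, Units.mul_inv, one_mul]
  refine ⟨m, ZMod.val_lt _, ?_⟩
  have h5 : v + D * (G ^ (K + 1) * m) ≡ τ [MOD D * H] := by
    have h6 : D * (G ^ (K + 1) * m) ≡ D * k [MOD D * H] := Nat.ModEq.mul_left' D hmk
    have h7 := Nat.ModEq.add_left v h6
    rw [hk] at h7
    refine h7.trans ?_
    have h8 : D * H * v ≡ 0 [MOD D * H] := (Nat.modEq_zero_iff_dvd.2 ⟨v, rfl⟩)
    simpa using Nat.ModEq.add_left τ h8
  have h9 : (v + D * (G ^ (K + 1) * m)) % (D * H) = τ := by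
    rw [h5, Nat.mod_eq_of_lt (by omega)]
  rw [hDH, h9]
  omega

open Classical in
/-- the number of residues which avoid the arc -/
theorem card_Av {G H Λ W : ℕ} (hH : 3 * Λ ≤ H) (hW : W < Λ) (hc : G.Coprime H) (K : ℕ) :
    ((range (6 * Λ * H ^ K)).filter (fun t => Av G H Λ W K t)).card ≤ 6 * Λ * (H - 1) ^ K := by
  have hH0 : 0 < H := by omega
  have hΛ0 : 0 < Λ := by omega
  induction K with
  | zero =>
    refine (card_filter_le _ _).trans ?_
    rw [card_range, pow_zero, pow_zero]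
  | succ K ih =>
    set D := 6 * Λ * H ^ K with hD
    have hD0 : 0 < D := by positivity
    have hDH : 6 * Λ * H ^ (K + 1) = H * D := by rw [hD, pow_succ]; ring
    have h1 : ((range (6 * Λ * H ^ (K + 1))).filter (fun t => Av G H Λ W (K + 1) t)).card ≤
        (H - 1) * ((range D).filter (fun t => Av G H Λ W K t)).card := by
      refine card_le_mul_card_image_of_maps_to (f := fun t => t % D) ?_ (H - 1) ?_
      · intro t ht
        rw [mem_filter, mem_range] at ht ⊢
        refine ⟨Nat.mod_lt _ hD0, fun i hi hcon => ht.2 i (by omega) ?_⟩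
        have h2 : (G ^ i * H ^ (K - i) * (t % D)) % D = (G ^ i * H ^ (K - i) * t) % D :=
          Nat.mul_mod_mod _ _ _
        rw [← hD, h2] at hcon
        have h3 : G ^ i * H ^ (K + 1 - i) * t = H * (G ^ i * H ^ (K - i) * t) := by
          have : K + 1 - i = K - i + 1 := by omega
          rw [this, pow_succ]
          ring
        rw [hDH, h3, Nat.mul_mod_mul_left]
        have h4 : ∀ c : ℕ, 2 * c * H ^ (K + 1) = H * (2 * c * H ^ K) := by
          intro c
          rw [pow_succ]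
          ring
        rw [h4, h4]
        exact ⟨Nat.mul_le_mul_left _ hcon.1, Nat.mul_lt_mul_of_pos_left hcon.2 hH0⟩
      · intro t₁ ht₁
        obtain ⟨m, hm, hm1, hm2⟩ := exists_lift (K := K) hH hW hc (G ^ (K + 1) * t₁)
        have h5 : (((range (6 * Λ * H ^ (K + 1))).filter (fun t => Av G H Λ W (K + 1) t)).filter
            (fun t => t % D = t₁)) ⊆ ((range H).erase m).image (fun k => t₁ + D * k) := by
          intro t ht
          rw [mem_filter, mem_filter, mem_range] at ht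
          obtain ⟨⟨h6, h7⟩, h8⟩ := ht
          have h9 : t = t₁ + D * (t / D) := by
            rw [← h8]
            exact (Nat.mod_add_div t D).symm
          rw [mem_image]
          refine ⟨t / D, ?_, h9.symm⟩
          rw [mem_erase, mem_range]
          constructor
          · intro h10
            apply h7 (K + 1) le_rfl
            rw [Nat.sub_self, pow_zero, mul_one, h9, h10]
            have h11 : G ^ (K + 1) * (t₁ + D * m) =
                G ^ (K + 1) * t₁ + 6 * Λ * H ^ K * (G ^ (K + 1) * m) := by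
              rw [hD]
              ring
            rw [h11]
            exact ⟨hm1, hm2⟩
          · rw [Nat.div_lt_iff_lt_mul hD0, ← hDH]
            exact h6
        refine (card_le_card h5).trans (card_image_le.trans ?_)
        rw [card_erase_of_mem (mem_range.2 hm), card_range]
    calc ((range (6 * Λ * H ^ (K + 1))).filter (fun t => Av G H Λ W (K + 1) t)).card
        ≤ (H - 1) * ((range D).filter (fun t => Av G H Λ W K t)).card := h1
      _ ≤ (H - 1) * (6 * Λ * (H - 1) ^ K) := Nat.mul_le_mul_left _ ih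
      _ = 6 * Λ * (H - 1) ^ (K + 1) := by rw [pow_succ]; ring

/-- `Av` follows from avoiding the arc at the nearby real point -/
theorem Av_of_avoid {G H Λ W K X : ℕ} (hGH : G ≤ H) (hH : 3 * Λ ≤ H) (hW : W < Λ)
    (hX : 6 * Λ * H ^ K ≤ X + 1) {y y' : ℝ} (hy' : 0 ≤ y') (hyy : |y - y'| ≤ 1 / (X + 1))
    (h : ∀ i ≤ K, ⌊(Λ : ℝ) * ((G : ℝ) ^ i * (H : ℝ) ^ (K - i) * y)⌋₊ % Λ ≠ W) :
    Av G H Λ W K (⌊((6 * Λ * H ^ K : ℕ) : ℝ) * y'⌋₊ % (6 * Λ * H ^ K)) := by
  intro i hi hcon
  have hH0 : 0 < H := by omega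
  have hΛ0 : 0 < Λ := by omega
  set D := 6 * Λ * H ^ K with hD
  have hD0 : 0 < D := by positivity
  have hDR : (0 : ℝ) < D := by exact_mod_cast hD0
  set t := ⌊(D : ℝ) * y'⌋₊ with ht
  set c := G ^ i * H ^ (K - i) with hc
  rw [Nat.mul_mod_mod] at hcon
  set ρ := (c * t) % D with hρ
  set m := (c * t) / D with hm
  have hcm : c * t = D * m + ρ := (Nat.div_add_mod (c * t) D).symm
  have hcH : c ≤ H ^ K := by
    calc c = G ^ i * H ^ (K - i) := hc
      _ ≤ H ^ i * H ^ (K - i) := Nat.mul_le_mul_right _ (Nat.pow_le_pow_left hGH i)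
      _ = H ^ K := by rw [← pow_add]; congr 1; omega
  have ht1 : (t : ℝ) ≤ D * y' := Nat.floor_le (by positivity)
  have ht2 : (D : ℝ) * y' < t + 1 := Nat.lt_floor_add_one _
  have hXR : (0 : ℝ) < (X : ℝ) + 1 := by positivity
  have hcR : (0 : ℝ) ≤ c := Nat.cast_nonneg c
  have hΛR : (0 : ℝ) < Λ := by exact_mod_cast hΛ0
  -- the scaled errors
  have hHKR : (0 : ℝ) < (H : ℝ) ^ K := by
    have : (0 : ℝ) < H := by exact_mod_cast hH0
    positivity
  have hDeq : (D : ℝ) = 6 * Λ * (H : ℝ) ^ K := by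
    rw [hD]
    push_cast
    ring
  have hcle : (c : ℝ) ≤ (H : ℝ) ^ K := by exact_mod_cast hcH
  have hE1 : (Λ : ℝ) * c * (1 / ((X : ℝ) + 1)) ≤ 1 / 6 := by
    have h1 : (1 : ℝ) / ((X : ℝ) + 1) ≤ 1 / D := by
      apply one_div_le_one_div_of_le hDR
      exact_mod_cast hX
    have h2 : (Λ : ℝ) * c * (1 / ((X : ℝ) + 1)) ≤ Λ * (H : ℝ) ^ K * (1 / D) := by
      apply mul_le_mul _ h1 (by positivity) (by positivity)
      exact mul_le_mul_of_nonneg_left hcle hΛR.le
    refine h2.trans (le_of_eq ?_)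
    rw [hDeq]
    field_simp
  have hE2 : (Λ : ℝ) * c / D ≤ 1 / 6 := by
    have h2 : (Λ : ℝ) * c / D ≤ Λ * (H : ℝ) ^ K / D := by
      apply div_le_div_of_nonneg_right _ hDR.le
      exact mul_le_mul_of_nonneg_left hcle hΛR.le
    refine h2.trans (le_of_eq ?_)
    rw [hDeq]
    field_simp
  rw [abs_le] at hyy
  -- bounds for `Λ c y`
  have hct : (c : ℝ) * t = D * m + ρ := by exact_mod_cast hcm
  have hlow : (Λ : ℝ) * m + Λ * ρ / D - 1 / 6 ≤ Λ * (c * y) := by
    have h1 : (t : ℝ) / D ≤ y' := by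
      rw [div_le_iff₀ hDR]
      linarith
    have h2 : (t : ℝ) / D - 1 / (X + 1) ≤ y := by linarith
    have h3 : (Λ : ℝ) * (c * (t / D - 1 / (X + 1))) ≤ Λ * (c * y) :=
      mul_le_mul_of_nonneg_left (mul_le_mul_of_nonneg_left h2 hcR) hΛR.le
    have h4 : (Λ : ℝ) * (c * (t / D - 1 / (X + 1))) =
        Λ * m + Λ * ρ / D - Λ * c * (1 / (X + 1)) := by
      have : (c : ℝ) * (t / D) = m + ρ / D := by
        rw [← mul_div_assoc, hct]
        field_simp
      calc (Λ : ℝ) * (c * (t / D - 1 / (X + 1)))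
          = Λ * (c * (t / D)) - Λ * c * (1 / (X + 1)) := by ring
        _ = _ := by rw [this]; ring
    rw [h4] at h3
    linarith
  have hup : (Λ : ℝ) * (c * y) ≤ Λ * m + Λ * ρ / D + 1 / 3 := by
    have h1 : y' ≤ ((t : ℝ) + 1) / D := by
      rw [le_div_iff₀ hDR]
      linarith
    have h2 : y ≤ ((t : ℝ) + 1) / D + 1 / (X + 1) := by linarith
    have h3 : Λ * (c * y) ≤ (Λ : ℝ) * (c * (((t : ℝ) + 1) / D + 1 / (X + 1))) :=
      mul_le_mul_of_nonneg_left (mul_le_mul_of_nonneg_left h2 hcR) hΛR.le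
    have h4 : (Λ : ℝ) * (c * (((t : ℝ) + 1) / D + 1 / (X + 1))) =
        Λ * m + Λ * ρ / D + Λ * c / D + Λ * c * (1 / (X + 1)) := by
      have : (c : ℝ) * (t / D) = m + ρ / D := by
        rw [← mul_div_assoc, hct]
        field_simp
      calc (Λ : ℝ) * (c * (((t : ℝ) + 1) / D + 1 / (X + 1)))
          = Λ * (c * (t / D)) + Λ * c / D + Λ * c * (1 / (X + 1)) := by ring
        _ = _ := by rw [this]; ring
    rw [h4] at h3
    linarith
  -- the position of `Λ ρ / D`
  have hρ1 : (W : ℝ) + 1 / 3 ≤ Λ * ρ / D := by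
    have h1 : (2 * (3 * (W : ℝ) + 1)) * (H : ℝ) ^ K ≤ ρ := by exact_mod_cast hcon.1
    rw [le_div_iff₀ hDR, hDeq]
    calc ((W : ℝ) + 1 / 3) * (6 * Λ * (H : ℝ) ^ K) = Λ * ((2 * (3 * (W : ℝ) + 1)) * (H : ℝ) ^ K) := by ring
      _ ≤ Λ * ρ := mul_le_mul_of_nonneg_left h1 hΛR.le
  have hρ2 : (Λ : ℝ) * ρ / D < W + 2 / 3 := by
    have h1 : (ρ : ℝ) < (2 * (3 * (W : ℝ) + 2)) * (H : ℝ) ^ K := by exact_mod_cast hcon.2
    rw [div_lt_iff₀ hDR, hDeq]
    calc (Λ : ℝ) * ρ < Λ * ((2 * (3 * (W : ℝ) + 2)) * (H : ℝ) ^ K) :=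
          mul_lt_mul_of_pos_left h1 hΛR
      _ = ((W : ℝ) + 2 / 3) * (6 * Λ * (H : ℝ) ^ K) := by ring
  apply h i hi
  have hcc : (G : ℝ) ^ i * (H : ℝ) ^ (K - i) * y = c * y := by
    rw [hc]
    push_cast
    ring
  rw [hcc]
  have hfl : ⌊(Λ : ℝ) * (c * y)⌋₊ = Λ * m + W := by
    have hm0 : (0 : ℝ) ≤ Λ * m := by positivity
    have hW0 : (0 : ℝ) ≤ W := Nat.cast_nonneg W
    rw [Nat.floor_eq_iff (by linarith)]
    push_cast
    constructor <;> linarith
  rw [hfl, Nat.mul_add_mod, Nat.mod_eq_of_lt hW]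

/-- at most `Q / D + 1` integers `κ` have the same `⌊D (θ + κ / Q)⌋` -/
theorem card_floor {D Q : ℕ} (hD : 0 < D) (hQ : 0 < Q) (θ : ℝ) (hθ : 0 ≤ θ) (s : Finset ℕ) (v : ℕ)
    (hs : ∀ κ ∈ s, ⌊(D : ℝ) * (θ + κ / Q)⌋₊ = v) : s.card ≤ Q / D + 1 := by
  rcases s.eq_empty_or_nonempty with rfl | hne
  · simp
  have hDR : (0 : ℝ) < D := by exact_mod_cast hD
  have hQR : (0 : ℝ) < Q := by exact_mod_cast hQ
  set a := s.min' hne with ha
  have hsub : s ⊆ Icc a (a + Q / D) := by
    intro κ hκ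
    rw [mem_Icc]
    have h1 : a ≤ κ := s.min'_le κ hκ
    refine ⟨h1, ?_⟩
    have h2 := hs κ hκ
    have h3 := hs a (s.min'_mem hne)
    have h4 : (D : ℝ) * (θ + κ / Q) < v + 1 := by
      rw [← h2]
      exact Nat.lt_floor_add_one _
    have h5 : (v : ℝ) ≤ D * (θ + a / Q) := by
      rw [← h3]
      exact Nat.floor_le (by positivity)
    have h6 : (D : ℝ) * (κ - a) < Q := by
      have h7 : (D : ℝ) * (κ / Q) - D * (a / Q) < 1 := by
        have := mul_add (D : ℝ) θ (κ / Q)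
        have := mul_add (D : ℝ) θ (a / Q)
        linarith
      have h8 : (D : ℝ) * (κ - a) = (D * (κ / Q) - D * (a / Q)) * Q := by
        field_simp
      rw [h8]
      calc (D * (κ / Q) - D * (a / Q)) * (Q : ℝ) < 1 * Q := by gcongr
        _ = Q := one_mul _
    obtain ⟨δ, rfl⟩ := Nat.exists_eq_add_of_le h1
    have h9 : D * δ < Q := by
      have : (D : ℝ) * δ < Q := by
        push_cast at h6
        linarith
      exact_mod_cast this
    have h10 : δ ≤ Q / D := by
      rw [Nat.le_div_iff_mul_le hD, mul_comm]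
      exact h9.le
    omega
  refine (card_le_card hsub).trans ?_
  rw [Nat.card_Icc]
  generalize Q / D = x
  omega

/-- every residue class modulo `D` is taken at most `2 (Q / D + 1)` times -/
theorem card_class {D Q r : ℕ} (hD : 0 < D) (hQ : 0 < Q) (hr : r.Coprime Q) (θ : ℝ) (hθ : 0 ≤ θ)
    (s : Finset ℕ) (hsQ : ∀ b ∈ s, b < Q) (c : ℕ)
    (hs : ∀ b ∈ s, ⌊(D : ℝ) * (θ + b * (r / Q))⌋₊ % D = c) : s.card ≤ 2 * (Q / D + 1) := by
  classical
  have hDR : (0 : ℝ) < D := by exact_mod_cast hD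
  have hQR : (0 : ℝ) < Q := by exact_mod_cast hQ
  -- change of variables
  have hred : ∀ b : ℕ, ⌊(D : ℝ) * (θ + b * (r / Q))⌋₊ =
      ⌊(D : ℝ) * (θ + ((b * r % Q : ℕ) : ℝ) / Q)⌋₊ + D * (b * r / Q) := by
    intro b
    have h1 : ((b * r : ℕ) : ℝ) = Q * ((b * r / Q : ℕ) : ℝ) + ((b * r % Q : ℕ) : ℝ) := by
      exact_mod_cast (Nat.div_add_mod (b * r) Q).symm
    have h2 : (D : ℝ) * (θ + b * (r / Q)) =
        D * (θ + ((b * r % Q : ℕ) : ℝ) / Q) + ((D * (b * r / Q) : ℕ) : ℝ) := by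
      have h3 : (b : ℝ) * (r / Q) = ((b * r : ℕ) : ℝ) / Q := by
        push_cast
        ring
      rw [h3, h1]
      push_cast
      field_simp
      ring
    rw [h2, Nat.floor_add_natCast (by positivity)]
  have hinj : Set.InjOn (fun b => b * r % Q) (s : Set ℕ) := by
    intro b hb b' hb' heq
    have h1 : b * r ≡ b' * r [MOD Q] := heq
    have h2 : b ≡ b' [MOD Q] := Nat.ModEq.cancel_right_of_coprime hr.symm h1
    have h3 := hsQ b hb
    have h4 := hsQ b' hb'
    rwa [Nat.ModEq, Nat.mod_eq_of_lt h3, Nat.mod_eq_of_lt h4] at h2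
  rw [← card_image_of_injOn hinj]
  set s' := s.image (fun b => b * r % Q) with hs'
  have hs'1 : ∀ κ ∈ s', κ < Q ∧ ⌊(D : ℝ) * (θ + κ / Q)⌋₊ % D = c := by
    intro κ hκ
    rw [hs', mem_image] at hκ
    obtain ⟨b, hb, rfl⟩ := hκ
    refine ⟨Nat.mod_lt _ hQ, ?_⟩
    have h1 := hs b hb
    rw [hred, Nat.add_mul_mod_self_left] at h1
    exact h1
  set v₀ := ⌊(D : ℝ) * θ⌋₊ with hv₀
  set V := (Icc v₀ (v₀ + D)).filter (fun v => v % D = c) with hV
  have hVcard : V.card ≤ 2 := by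
    have h1 : V.card ≤ (range 2).card := by
      apply card_le_card_of_injOn (fun v => (v - v₀) / D)
      · intro v hv
        rw [hV, coe_filter, Set.mem_ofPred_eq, mem_Icc] at hv
        rw [coe_range, Set.mem_Iio, Nat.div_lt_iff_lt_mul hD]
        omega
      · intro v hv v' hv' heq
        rw [hV, coe_filter, Set.mem_ofPred_eq, mem_Icc] at hv hv'
        obtain ⟨⟨h1, _⟩, h3⟩ := hv
        obtain ⟨⟨h4, _⟩, h6⟩ := hv'
        simp only at heq
        have h7 : v ≡ v' [MOD D] := by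
          rw [Nat.ModEq, h3, h6]
        have h8 : v - v₀ ≡ v' - v₀ [MOD D] := Nat.ModEq.sub h1 h4 h7 rfl
        have h9 := Nat.div_add_mod (v - v₀) D
        have h10 := Nat.div_add_mod (v' - v₀) D
        rw [heq] at h9
        have h11 : (v - v₀) % D = (v' - v₀) % D := h8
        omega
    rwa [card_range] at h1
  have h2 : s'.card ≤ (Q / D + 1) * V.card := by
    refine card_le_mul_card_image_of_maps_to (f := fun κ : ℕ => ⌊(D : ℝ) * (θ + κ / Q)⌋₊) ?_ _ ?_
    · intro κ hκ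
      obtain ⟨h3, h4⟩ := hs'1 κ hκ
      rw [hV, mem_filter, mem_Icc]
      refine ⟨⟨?_, ?_⟩, h4⟩
      · apply Nat.floor_le_floor
        have : (0 : ℝ) ≤ D * (κ / Q) := by positivity
        rw [mul_add]
        linarith
      · have h5 : (D : ℝ) * (θ + κ / Q) ≤ D * θ + (D : ℕ) := by
          have h6 : (κ : ℝ) / Q ≤ 1 := by
            rw [div_le_one hQR]
            exact_mod_cast h3.le
          rw [mul_add]
          have := mul_le_mul_of_nonneg_left h6 hDR.le
          linarith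
        calc ⌊(D : ℝ) * (θ + κ / Q)⌋₊ ≤ ⌊(D : ℝ) * θ + (D : ℕ)⌋₊ := Nat.floor_le_floor h5
          _ = v₀ + D := by rw [Nat.floor_add_natCast (by positivity)]
    · intro v _
      exact card_floor hD hQ θ hθ _ v fun κ hκ => (mem_filter.1 hκ).2
  calc s'.card ≤ (Q / D + 1) * V.card := h2
    _ ≤ (Q / D + 1) * 2 := Nat.mul_le_mul_left _ hVcard
    _ = 2 * (Q / D + 1) := mul_comm _ _

/-- the set of the multipliers which avoid the arc -/
def Bad (G H Λ W K : ℕ) (y : ℝ) : Prop :=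
  ∀ i ≤ K, ⌊(Λ : ℝ) * ((G : ℝ) ^ i * (H : ℝ) ^ (K - i) * y)⌋₊ % Λ ≠ W

/-- one block of the length of the denominator -/
theorem card_block {G H Λ W K X : ℕ} (hGH : G ≤ H) (hH : 3 * Λ ≤ H) (hW : W < Λ)
    (hc : G.Coprime H) (hX : 6 * Λ * H ^ K ≤ X + 1) (q : ℚ) {z w : ℝ} (hz : 0 ≤ z) (hw : 0 ≤ w)
    (hq : |w - q| ≤ 1 / ((X + 1) * q.den)) (s : Finset ℕ) (hs : ∀ b ∈ s, b < q.den)
    (hb : ∀ b ∈ s, Bad G H Λ W K (z + b * w)) :
    s.card ≤ 2 * (q.den / (6 * Λ * H ^ K) + 1) * (6 * Λ * (H - 1) ^ K) := by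
  classical
  have hH0 : 0 < H := by omega
  have hΛ0 : 0 < Λ := by omega
  have hQ0 : 0 < q.den := q.den_pos
  have hQR : (0 : ℝ) < q.den := by exact_mod_cast hQ0
  have hXR : (0 : ℝ) < (X : ℝ) + 1 := by positivity
  have hq0 : 0 ≤ q.num := by
    by_contra hcon
    push Not at hcon
    have h1 : (q.num : ℝ) ≤ -1 := by exact_mod_cast (by omega : q.num ≤ -1)
    have h2 : (q : ℝ) = q.num / q.den := by exact_mod_cast (Rat.num_div_den q).symm
    have h3 : (q : ℝ) ≤ -1 / q.den := by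
      rw [h2]
      exact div_le_div_of_nonneg_right h1 hQR.le
    have h4 : (1 : ℝ) / ((X + 1) * q.den) < 1 / q.den ∨ X = 0 := by
      rcases Nat.eq_zero_or_pos X with h | h
      · exact Or.inr h
      · left
        apply one_div_lt_one_div_of_lt hQR
        have : (1 : ℝ) < (X : ℝ) + 1 := by
          have : (0 : ℝ) < X := by exact_mod_cast h
          linarith
        nlinarith
    have hX1 : X ≠ 0 := by
      rintro rfl
      have : 0 < H ^ K := pow_pos hH0 K
      have h5 : 6 * 1 * 1 ≤ 6 * Λ * H ^ K := Nat.mul_le_mul (by omega) this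
      omega
    rcases h4 with h4 | h4
    · rw [abs_le] at hq
      have h5 : -1 / (q.den : ℝ) = -(1 / q.den) := by ring
      linarith [hq.2]
    · exact hX1 h4
  obtain ⟨r, hr⟩ := Int.eq_ofNat_of_zero_le hq0
  have hqr : (q : ℝ) = (r : ℝ) / q.den := by
    have h2 : (q : ℝ) = q.num / q.den := by exact_mod_cast (Rat.num_div_den q).symm
    rw [h2, hr]
    push_cast
    rfl
  have hcop : r.Coprime q.den := by
    have h1 := q.reduced
    rw [hr] at h1
    simpa using h1
  set D := 6 * Λ * H ^ K with hD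
  have hD0 : 0 < D := by positivity
  have h1 : s.card ≤ (2 * (q.den / D + 1)) *
      ((range D).filter (fun t => Av G H Λ W K t)).card := by
    refine card_le_mul_card_image_of_maps_to
      (f := fun b : ℕ => ⌊(D : ℝ) * (z + b * (r / q.den))⌋₊ % D) ?_ _ ?_
    · intro b hbs
      rw [mem_filter, mem_range]
      refine ⟨Nat.mod_lt _ hD0, ?_⟩
      refine Av_of_avoid hGH hH hW hX (y := z + b * w) (by positivity) ?_ (hb b hbs)
      have h2 : z + (b : ℝ) * w - (z + b * (r / q.den)) = b * (w - q) := by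
        rw [hqr]
        ring
      rw [h2, abs_mul, Nat.abs_cast]
      have h3 : (b : ℝ) ≤ q.den := by exact_mod_cast (hs b hbs).le
      calc (b : ℝ) * |w - q| ≤ q.den * (1 / ((X + 1) * q.den)) := by gcongr
        _ = 1 / (X + 1) := by field_simp
    · intro c _
      refine card_class hD0 hQ0 hcop z hz _ (fun b hb' => hs b (mem_filter.1 hb').1) c ?_
      intro b hb'
      exact (mem_filter.1 hb').2
  calc s.card ≤ (2 * (q.den / D + 1)) * ((range D).filter (fun t => Av G H Λ W K t)).card := h1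
    _ ≤ (2 * (q.den / D + 1)) * (6 * Λ * (H - 1) ^ K) :=
      Nat.mul_le_mul_left _ (card_Av hH hW hc K)

/-- all multipliers below `X` -/
theorem card_bad {G H Λ W K X : ℕ} (hGH : G ≤ H) (hH : 3 * Λ ≤ H) (hW : W < Λ)
    (hc : G.Coprime H) (hX : 6 * Λ * H ^ K ≤ X + 1) (q : ℚ) {z w : ℝ} (hz : 0 ≤ z) (hw : 0 ≤ w)
    (hq : |w - q| ≤ 1 / ((X + 1) * q.den)) (hq1 : 6 * Λ * H ^ K ≤ q.den) (hq2 : q.den ≤ X)
    (s : Finset ℕ) (hs : ∀ a ∈ s, a < X) (hb : ∀ a ∈ s, Bad G H Λ W K (z + a * w)) :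
    s.card * H ^ K ≤ 8 * X * (H - 1) ^ K := by
  classical
  have hH0 : 0 < H := by omega
  have hΛ0 : 0 < Λ := by omega
  have hQ0 : 0 < q.den := q.den_pos
  set D := 6 * Λ * H ^ K with hD
  have hD0 : 0 < D := by positivity
  have h1 : s.card ≤ (2 * (q.den / D + 1) * (6 * Λ * (H - 1) ^ K)) * (range (X / q.den + 1)).card := by
    refine card_le_mul_card_image_of_maps_to (f := fun a : ℕ => a / q.den) ?_ _ ?_
    · intro a ha
      rw [mem_range]
      have := Nat.div_le_div_right (c := q.den) (hs a ha).le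
      omega
    · intro m _
      set s' := (s.filter (fun a => a / q.den = m)) with hs'
      have hinj : Set.InjOn (fun a => a % q.den) (s' : Set ℕ) := by
        intro a ha a' ha' heq
        rw [hs', coe_filter, Set.mem_ofPred_eq] at ha ha'
        have h3 := Nat.div_add_mod a q.den
        have h4 := Nat.div_add_mod a' q.den
        simp only at heq
        rw [ha.2, heq] at h3
        rw [ha'.2] at h4
        omega
      rw [← card_image_of_injOn hinj]
      refine card_block hGH hH hW hc hX q (z := z + (q.den * m : ℕ) * w) (by positivity) hw hq _ ?_ ?_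
      · intro b hb'
        rw [mem_image] at hb'
        obtain ⟨a, _, rfl⟩ := hb'
        exact Nat.mod_lt _ hQ0
      · intro b hb'
        rw [mem_image] at hb'
        obtain ⟨a, ha, rfl⟩ := hb'
        rw [hs', mem_filter] at ha
        have h5 := hb a ha.1
        have h6 : (a : ℝ) = ((q.den * m : ℕ) : ℝ) + ((a % q.den : ℕ) : ℝ) := by
          have := Nat.div_add_mod a q.den
          rw [ha.2] at this
          exact_mod_cast this.symm
        have h7 : z + (a : ℝ) * w = z + ((q.den * m : ℕ) : ℝ) * w + ((a % q.den : ℕ) : ℝ) * w := by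
          rw [h6]
          ring
        rw [h7] at h5
        exact h5
  rw [card_range] at h1
  have h8 : q.den * (X / q.den + 1) ≤ 2 * X := by
    have := Nat.mul_div_le X q.den
    rw [mul_add, mul_one]
    omega
  have h9 : D * (q.den / D + 1) ≤ 2 * q.den := by
    have := Nat.mul_div_le q.den D
    rw [mul_add, mul_one]
    omega
  have h10 : D * ((2 * (q.den / D + 1)) * (X / q.den + 1)) ≤ 8 * X := by
    have h11 : q.den * (D * ((2 * (q.den / D + 1)) * (X / q.den + 1))) ≤ q.den * (8 * X) := by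
      calc q.den * (D * ((2 * (q.den / D + 1)) * (X / q.den + 1)))
          = 2 * ((D * (q.den / D + 1)) * (q.den * (X / q.den + 1))) := by ring
        _ ≤ 2 * ((2 * q.den) * (2 * X)) :=
          Nat.mul_le_mul_left _ (Nat.mul_le_mul h9 h8)
        _ = q.den * (8 * X) := by ring
    exact Nat.le_of_mul_le_mul_left h11 hQ0
  calc s.card * H ^ K
      ≤ ((2 * (q.den / D + 1) * (6 * Λ * (H - 1) ^ K)) * (X / q.den + 1)) * H ^ K :=
        Nat.mul_le_mul_right _ h1
    _ = (D * ((2 * (q.den / D + 1)) * (X / q.den + 1))) * (H - 1) ^ K := by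
        rw [hD]
        ring
    _ ≤ 8 * X * (H - 1) ^ K := Nat.mul_le_mul_right _ h10

end Pool.Agent.Lib.MP_cc0c1a_nt.Modif
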