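import Mathlib

/-!
# MP_cc0c1a_nt, module ModifTime: good times and numerics

`good_time`: in every window `[N, 8 N / 5 - S]` of large times there is a time `n` at which the number
`6^q (3/2)^n / 2^S` has a good rational approximation with a large denominator.
`numerics`: the choice of the parameters.
-/

set_option autoImplicit false

open Finset

namespace Pool.Agent.Lib.MP_cc0c1a_nt.Modif

theorem good_time (q : ℤ) (S D X : ℕ) (hD : 0 < D) (hDX : 5 * D ≤ X + 1) :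
    ∃ N₀ : ℕ, ∀ N ≥ N₀, ∃ n, N ≤ n ∧ 5 * (n + S) ≤ 8 * N ∧ ∃ ρ : ℚ,
      |(6 : ℝ) ^ q * (3 / 2) ^ n / 2 ^ S - ρ| ≤ 1 / ((X + 1) * ρ.den) ∧ D ≤ ρ.den ∧ ρ.den ≤ X := by
  set w : ℕ → ℝ := fun n => (6 : ℝ) ^ q * (3 / 2) ^ n / 2 ^ S with hw
  have hX0 : 0 < X := by omega
  have hXR : (0 : ℝ) < (X : ℝ) + 1 := by positivity
  choose ρ hρ1 hρ2 using fun n => Real.exists_rat_abs_sub_le_and_den_le (w n) hX0
  obtain ⟨u₁, u₂, hu⟩ : ∃ u₁ u₂ : ℕ, q = (u₁ : ℤ) - u₂ := ⟨q.toNat, (-q).toNat, by omega⟩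
  obtain ⟨N₁, hN₁⟩ := pow_unbounded_of_one_lt
    (((2 : ℝ) ^ (S + 1)) ^ 5 * (2 * (D : ℝ) ^ 2 * 6 ^ u₁) ^ 5) (by norm_num : (1 : ℝ) < 256 / 243)
  obtain ⟨N₂, hN₂⟩ := pow_unbounded_of_one_lt ((2 : ℝ) ^ S * 6 ^ u₂) (by norm_num : (1 : ℝ) < 3 / 2)
  refine ⟨N₁ + N₂ + 2 * S, fun N hN => ?_⟩
  by_contra hcon
  push Not at hcon
  have hden : ∀ n, N ≤ n → 5 * (n + S) ≤ 8 * N → (ρ n).den < D := by
    intro n h1 h2
    by_contra h3
    push Not at h3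
    have h4 := hcon n h1 h2 (ρ n) (hρ1 n) h3
    have := hρ2 n
    omega
  -- rational form
  have hQ : ∀ n, (0 : ℝ) < (ρ n).den := fun n => by exact_mod_cast (ρ n).den_pos
  have hrat : ∀ n, ((ρ n : ℚ) : ℝ) = (ρ n).num / (ρ n).den := fun n => by
    exact_mod_cast (Rat.num_div_den (ρ n)).symm
  have herr : ∀ n, |w n - ρ n| ≤ 1 := by
    intro n
    refine (hρ1 _).trans ?_
    rw [div_le_one (mul_pos hXR (hQ _))]
    have h1 : (1 : ℝ) ≤ (ρ n).den := by exact_mod_cast (ρ _).den_pos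
    have h2 : (1 : ℝ) ≤ (X : ℝ) + 1 := by
      have : (0 : ℝ) ≤ X := Nat.cast_nonneg X
      linarith
    calc (1 : ℝ) = 1 * 1 := by ring
      _ ≤ (X + 1) * (ρ n).den := by gcongr
  -- the step
  have hstep : ∀ n, N ≤ n → 5 * (n + 1 + S) ≤ 8 * N →
      2 * ((ρ (n + 1) : ℚ) : ℝ) = 3 * (ρ n : ℚ) := by
    intro n h1 h2
    have hq1 := hden n h1 (by omega)
    have hq2 := hden (n + 1) (by omega) h2
    have hw2 : 2 * w (n + 1) = 3 * w n := by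
      simp only [hw]
      rw [pow_succ]
      ring
    have e1 := hρ1 n
    have e2 := hρ1 (n + 1)
    have h3 : |2 * ((ρ (n + 1) : ℚ) : ℝ) - 3 * (ρ n : ℚ)| ≤
        2 * (1 / ((X + 1) * (ρ (n + 1)).den)) + 3 * (1 / ((X + 1) * (ρ n).den)) := by
      have h4 : 2 * ((ρ (n + 1) : ℚ) : ℝ) - 3 * (ρ n : ℚ) =
          3 * (w n - ρ n) - 2 * (w (n + 1) - ρ (n + 1)) := by linarith
      rw [h4]
      refine (abs_sub _ _).trans ?_
      rw [abs_mul, abs_mul, abs_of_pos (by norm_num : (0 : ℝ) < 3),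
        abs_of_pos (by norm_num : (0 : ℝ) < 2)]
      linarith
    have h5 : |(2 * (ρ (n + 1)).num * (ρ n).den - 3 * (ρ n).num * (ρ (n + 1)).den : ℤ)| < 1 := by
      have h6 : ((2 * (ρ (n + 1)).num * (ρ n).den - 3 * (ρ n).num * (ρ (n + 1)).den : ℤ) : ℝ) =
          (2 * ((ρ (n + 1) : ℚ) : ℝ) - 3 * (ρ n : ℚ)) * ((ρ n).den * (ρ (n + 1)).den) := by
        rw [hrat, hrat]
        have := (hQ n).ne'
        have := (hQ (n + 1)).ne'
        push_cast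
        field_simp
      have h7 : |((2 * (ρ (n + 1)).num * (ρ n).den - 3 * (ρ n).num * (ρ (n + 1)).den : ℤ) : ℝ)| < 1 := by
        rw [h6, abs_mul, abs_of_pos (mul_pos (hQ n) (hQ (n + 1)))]
        have h8 : |2 * ((ρ (n + 1) : ℚ) : ℝ) - 3 * (ρ n : ℚ)| * ((ρ n).den * (ρ (n + 1)).den) ≤
            (2 * (1 / ((X + 1) * (ρ (n + 1)).den)) + 3 * (1 / ((X + 1) * (ρ n).den))) *
              ((ρ n).den * (ρ (n + 1)).den) :=
          mul_le_mul_of_nonneg_right h3 (mul_pos (hQ n) (hQ (n + 1))).le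
        refine lt_of_le_of_lt h8 ?_
        have h9 : (2 * (1 / (((X : ℝ) + 1) * (ρ (n + 1)).den)) + 3 * (1 / ((X + 1) * (ρ n).den))) *
              ((ρ n).den * (ρ (n + 1)).den) = (2 * (ρ n).den + 3 * (ρ (n + 1)).den) / (X + 1) := by
          have := (hQ n).ne'
          have := (hQ (n + 1)).ne'
          field_simp
        rw [h9, div_lt_one hXR]
        have h10 : 2 * (ρ n).den + 3 * (ρ (n + 1)).den < X + 1 := by omega
        exact_mod_cast h10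
      exact_mod_cast h7
    have h11 : (2 * (ρ (n + 1)).num * (ρ n).den - 3 * (ρ n).num * (ρ (n + 1)).den : ℤ) = 0 := by
      rwa [Int.abs_lt_one_iff] at h5
    rw [hrat, hrat]
    have h13 : (2 * ((ρ (n + 1)).num : ℝ) * (ρ n).den - 3 * (ρ n).num * (ρ (n + 1)).den) = 0 := by
      exact_mod_cast h11
    have := (hQ n).ne'
    have := (hQ (n + 1)).ne'
    field_simp
    linarith
  -- iterate
  have hiter : ∀ k, 5 * (N + k + S) ≤ 8 * N →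
      2 ^ k * ((ρ (N + k) : ℚ) : ℝ) = 3 ^ k * (ρ N : ℚ) := by
    intro k
    induction k with
    | zero => intro _; simp
    | succ k ih =>
      intro hk
      have h1 := hstep (N + k) (by omega) (by omega)
      have h2 : N + (k + 1) = N + k + 1 := by ring
      rw [h2, pow_succ, pow_succ, mul_assoc, h1]
      calc 2 ^ k * (3 * ((ρ (N + k) : ℚ) : ℝ)) = 3 * (2 ^ k * ((ρ (N + k) : ℚ) : ℝ)) := by ring
        _ = 3 * (3 ^ k * (ρ N : ℚ)) := by rw [ih (by omega)]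
        _ = 3 ^ k * 3 * (ρ N : ℚ) := by ring
  obtain ⟨b, hb⟩ : ∃ b, b + S = 3 * N / 5 := ⟨3 * N / 5 - S, by omega⟩
  have hbN : 5 * (N + b + S) ≤ 8 * N := by omega
  have hbN2 : 3 * N ≤ 5 * (b + S + 1) := by omega
  have hk := hiter b hbN
  have hQ1 := hden N le_rfl (by omega)
  have hQ2 := hden (N + b) (by omega) hbN
  -- size of `w N`
  have hwN : w N = (6 : ℝ) ^ u₁ / (2 ^ S * 6 ^ u₂) * (3 / 2) ^ N := by
    simp only [hw]
    rw [hu, zpow_sub₀ (by norm_num : (6 : ℝ) ≠ 0), zpow_natCast, zpow_natCast]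
    field_simp
  have hw1 : 1 < w N := by
    rw [hwN]
    have h1 : (2 : ℝ) ^ S * 6 ^ u₂ < (3 / 2) ^ N :=
      hN₂.trans_le (pow_le_pow_right₀ (by norm_num) (by omega))
    have h2 : (1 : ℝ) ≤ 6 ^ u₁ := one_le_pow₀ (by norm_num)
    rw [div_mul_eq_mul_div, lt_div_iff₀ (by positivity), one_mul]
    calc (2 : ℝ) ^ S * 6 ^ u₂ < (3 / 2) ^ N := h1
      _ = 1 * (3 / 2) ^ N := (one_mul _).symm
      _ ≤ 6 ^ u₁ * (3 / 2) ^ N := by gcongr
  have hw2 : w N ≤ 6 ^ u₁ * (3 / 2) ^ N := by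
    rw [hwN]
    have h1 : (1 : ℝ) ≤ 2 ^ S * 6 ^ u₂ := by
      have h2 : (1 : ℝ) ≤ 2 ^ S := one_le_pow₀ (by norm_num)
      have h3 : (1 : ℝ) ≤ 6 ^ u₂ := one_le_pow₀ (by norm_num)
      calc (1 : ℝ) = 1 * 1 := by ring
        _ ≤ 2 ^ S * 6 ^ u₂ := by gcongr
    apply mul_le_mul_of_nonneg_right _ (by positivity)
    exact div_le_self (by positivity) h1
  have hρN := herr N
  rw [abs_le] at hρN
  have hnum0 : 0 < (ρ N).num := by
    have h1 : (0 : ℝ) < (ρ N : ℚ) := by linarith [hρN.2]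
    have h2 : (0 : ℚ) < ρ N := by exact_mod_cast h1
    exact Rat.num_pos.2 h2
  -- divisibility
  have hdvd : (2 : ℤ) ^ b ∣ ((ρ N).num * (ρ (N + b)).den) * 3 ^ b := by
    refine ⟨(ρ (N + b)).num * (ρ N).den, ?_⟩
    have h1 : ((ρ N).num * (ρ (N + b)).den * 3 ^ b : ℝ) = 2 ^ b * ((ρ (N + b)).num * (ρ N).den) := by
      rw [hrat, hrat] at hk
      have := (hQ N).ne'
      have := (hQ (N + b)).ne'
      field_simp at hk
      linarith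
    exact_mod_cast h1
  have hcop : IsCoprime ((2 : ℤ) ^ b) (3 ^ b) := by
    apply IsCoprime.pow
    exact ⟨-1, 1, by norm_num⟩
  have hdvd2 : (2 : ℤ) ^ b ∣ (ρ N).num * (ρ (N + b)).den := hcop.dvd_of_dvd_mul_right hdvd
  have hle : (2 : ℤ) ^ b ≤ (ρ N).num * (ρ (N + b)).den := by
    apply Int.le_of_dvd _ hdvd2
    have : (0 : ℤ) < (ρ (N + b)).den := by exact_mod_cast (ρ _).den_pos
    positivity
  have hleR : (2 : ℝ) ^ b ≤ (ρ N).num * (ρ (N + b)).den := by exact_mod_cast hle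
  have hnum : ((ρ N).num : ℝ) = (ρ N : ℚ) * (ρ N).den := by
    rw [hrat]
    have := (hQ N).ne'
    field_simp
  have hDR : (0 : ℝ) < D := by exact_mod_cast hD
  have h1 : (2 : ℝ) ^ b ≤ 2 * (D : ℝ) ^ 2 * 6 ^ u₁ * (3 / 2) ^ N := by
    have hq1 : ((ρ N).den : ℝ) ≤ D := by exact_mod_cast hQ1.le
    have hq2 : ((ρ (N + b)).den : ℝ) ≤ D := by exact_mod_cast hQ2.le
    have hρ0 : (0 : ℝ) < (ρ N : ℚ) := by linarith [hρN.2]
    calc (2 : ℝ) ^ b ≤ (ρ N).num * (ρ (N + b)).den := hleR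
      _ = (ρ N : ℚ) * (ρ N).den * (ρ (N + b)).den := by rw [hnum]
      _ ≤ (2 * (6 ^ u₁ * (3 / 2) ^ N)) * D * D := by
          gcongr
          linarith [hρN.1]
      _ = _ := by ring
  have h2 : (8 : ℝ) ^ N ≤ (2 ^ b * 2 ^ (S + 1)) ^ 5 := by
    have h3 : (8 : ℝ) ^ N = 2 ^ (3 * N) := by
      rw [pow_mul]
      norm_num
    rw [h3, ← pow_add, ← pow_mul]
    apply pow_le_pow_right₀ (by norm_num)
    omega
  have h3 : (8 : ℝ) ^ N ≤ (((2 : ℝ) ^ (S + 1)) ^ 5 * (2 * (D : ℝ) ^ 2 * 6 ^ u₁) ^ 5) * (243 / 32) ^ N := by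
    calc (8 : ℝ) ^ N ≤ (2 ^ b * 2 ^ (S + 1)) ^ 5 := h2
      _ ≤ ((2 * (D : ℝ) ^ 2 * 6 ^ u₁ * (3 / 2) ^ N) * 2 ^ (S + 1)) ^ 5 := by gcongr
      _ = (((2 : ℝ) ^ (S + 1)) ^ 5 * (2 * (D : ℝ) ^ 2 * 6 ^ u₁) ^ 5) * (((3 / 2) ^ N) ^ 5) := by
          rw [mul_pow, mul_pow _ _ 5]
          ring
      _ = (((2 : ℝ) ^ (S + 1)) ^ 5 * (2 * (D : ℝ) ^ 2 * 6 ^ u₁) ^ 5) * (((3 / 2) ^ 5) ^ N) := by
          have h7 : (((3 / 2 : ℝ)) ^ N) ^ 5 = ((3 / 2) ^ 5) ^ N := by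
            rw [← pow_mul, ← pow_mul, mul_comm N 5]
          rw [h7]
      _ = _ := by norm_num
  have h4 : (8 : ℝ) ^ N = (256 / 243) ^ N * (243 / 32) ^ N := by
    rw [← mul_pow]
    norm_num
  rw [h4] at h3
  have h5 : (256 / 243 : ℝ) ^ N ≤ ((2 : ℝ) ^ (S + 1)) ^ 5 * (2 * (D : ℝ) ^ 2 * 6 ^ u₁) ^ 5 :=
    le_of_mul_le_mul_right h3 (by positivity)
  have h6 : (256 / 243 : ℝ) ^ N₁ ≤ (256 / 243) ^ N := pow_le_pow_right₀ (by norm_num) (by omega)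
  linarith

/-- the constant `1000` -/
theorem num_const (ℓ : ℕ) : (ℓ + 2) * (27 * (ℓ + 4) * 6 ^ ℓ + 1) ≤ 1000 * 7 ^ ℓ := by
  rcases le_or_gt ℓ 10 with h | h
  · interval_cases ℓ <;> norm_num
  · obtain ⟨k, rfl⟩ := Nat.exists_eq_add_of_le h.le
    clear h
    induction k with
    | zero => norm_num
    | succ k ih =>
      have h1 : 6 ^ (10 + (k + 1)) = 6 * 6 ^ (10 + k) := by ring
      have h2 : 7 ^ (10 + (k + 1)) = 7 * 7 ^ (10 + k) := by ring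
      rw [h1, h2]
      have h3 : (10 + (k + 1) + 2) * (27 * (10 + (k + 1) + 4) * (6 * 6 ^ (10 + k)) + 1) ≤
          7 * ((10 + k + 2) * (27 * (10 + k + 4) * 6 ^ (10 + k) + 1)) := by
        generalize 6 ^ (10 + k) = s
        nlinarith [Nat.zero_le s, Nat.zero_le (k * s), Nat.zero_le (k * k * s)]
      calc _ ≤ 7 * ((10 + k + 2) * (27 * (10 + k + 4) * 6 ^ (10 + k) + 1)) := h3
        _ ≤ 7 * (1000 * 7 ^ (10 + k)) := Nat.mul_le_mul_left _ ih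
        _ = 1000 * (7 * 7 ^ (10 + k)) := by ring

/-- Bernoulli -/
theorem bern {b : ℕ} (hb : 0 < b) : 2 * b ^ b ≤ (b + 1) ^ b := by
  have hbR : (0 : ℝ) < b := by exact_mod_cast hb
  have h1 : 1 + (b : ℝ) * (1 / b) ≤ (1 + 1 / (b : ℝ)) ^ b :=
    one_add_mul_le_pow (by have : (0 : ℝ) < 1 / b := by positivity
                           linarith) b
  have h2 : (b : ℝ) * (1 / b) = 1 := by field_simp
  have h3 : (2 : ℝ) * b ^ b ≤ (b + 1) ^ b := by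
    calc (2 : ℝ) * b ^ b ≤ (1 + 1 / (b : ℝ)) ^ b * b ^ b := by
          apply mul_le_mul_of_nonneg_right _ (by positivity)
          linarith
      _ = (b + 1) ^ b := by
          rw [← mul_pow]
          congr 1
          field_simp
  exact_mod_cast h3

/-- the power of the contraction -/
theorem contraction {H K m : ℕ} (hH : 2 ≤ H) (hK : (H - 1) * m ≤ K) :
    2 ^ m * (H - 1) ^ K ≤ H ^ K := by
  obtain ⟨b, rfl⟩ := Nat.exists_eq_add_of_le hH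
  have hb : 2 + b - 1 = b + 1 := by omega
  have hb2 : 2 + b = b + 1 + 1 := by omega
  rw [hb] at hK ⊢
  rw [hb2]
  obtain ⟨k, rfl⟩ := Nat.exists_eq_add_of_le hK
  have h1 := bern (b := b + 1) (by omega)
  calc 2 ^ m * (b + 1) ^ ((b + 1) * m + k)
      = (2 * (b + 1) ^ (b + 1)) ^ m * (b + 1) ^ k := by
        rw [mul_pow, pow_add, pow_mul]
        ring
    _ ≤ ((b + 1 + 1) ^ (b + 1)) ^ m * (b + 1 + 1) ^ k :=
        Nat.mul_le_mul (Nat.pow_le_pow_left h1 m) (Nat.pow_le_pow_left (by omega) k)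
    _ = (b + 1 + 1) ^ ((b + 1) * m + k) := by
        rw [pow_add (b + 1 + 1) ((b + 1) * m) k, pow_mul]

/-- the choice of the parameters -/
theorem numerics (ℓ L e : ℕ) (he : e = L / (1000 * 7 ^ ℓ)) (he0 : 0 < e) :
    ∃ h K : ℕ, 3 * 6 ^ ℓ ≤ 3 ^ h ∧ 5 * (6 * 6 ^ ℓ * (3 ^ h) ^ K) ≤ 6 ^ L + 1 ∧
      (3 * 6 ^ e) * 6 ^ ℓ * (8 * 6 ^ e) * (3 ^ h - 1) ^ K ≤ (3 ^ h) ^ K := by
  -- the exponent `h`
  obtain ⟨h, hh1, hh2⟩ : ∃ h : ℕ, 3 * 6 ^ ℓ ≤ 3 ^ h ∧ 3 ^ h ≤ 9 * 6 ^ ℓ := by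
    have hex : ∃ h : ℕ, 3 * 6 ^ ℓ ≤ 3 ^ h :=
      ⟨3 * 6 ^ ℓ, (Nat.lt_pow_self (by norm_num)).le⟩
    classical
    refine ⟨Nat.find hex, Nat.find_spec hex, ?_⟩
    rcases Nat.eq_zero_or_pos (Nat.find hex) with h0 | h0
    · rw [h0, pow_zero]
      have : 0 < 6 ^ ℓ := by positivity
      omega
    · have h1 := Nat.find_min hex (m := Nat.find hex - 1) (by omega)
      push Not at h1
      have h2 : 3 ^ (Nat.find hex) = 3 * 3 ^ (Nat.find hex - 1) := by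
        rw [← pow_succ']
        congr 1
        omega
      rw [h2]
      omega
  have h7 : 0 < 1000 * 7 ^ ℓ := by positivity
  have hL : 1000 * 7 ^ ℓ * e ≤ L := by
    rw [he]
    exact Nat.mul_div_le _ _
  set K := L / (ℓ + 2) - 1 with hK
  -- `L / (ℓ + 2)` is large
  have hbig : (27 * (ℓ + 2 * e + 2) * 6 ^ ℓ + 1) ≤ L / (ℓ + 2) := by
    rw [Nat.le_div_iff_mul_le (by omega)]
    have h1 := num_const ℓ
    have h2 : ℓ + 2 * e + 2 ≤ (ℓ + 4) * e := by nlinarith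
    calc (27 * (ℓ + 2 * e + 2) * 6 ^ ℓ + 1) * (ℓ + 2)
        ≤ (27 * ((ℓ + 4) * e) * 6 ^ ℓ + 1 * e) * (ℓ + 2) := by
          apply Nat.mul_le_mul_right
          apply Nat.add_le_add
          · exact Nat.mul_le_mul_right _ (Nat.mul_le_mul_left _ h2)
          · omega
      _ = (ℓ + 2) * (27 * (ℓ + 4) * 6 ^ ℓ + 1) * e := by ring
      _ ≤ 1000 * 7 ^ ℓ * e := Nat.mul_le_mul_right _ h1
      _ ≤ L := hL
  have hK1 : K + 1 = L / (ℓ + 2) := by omega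
  refine ⟨h, K, hh1, ?_, ?_⟩
  · have h1 : (ℓ + 2) * (K + 1) ≤ L := by
      rw [hK1]
      exact Nat.mul_div_le _ _
    have h2 : (3 ^ h) ^ K ≤ (6 ^ (ℓ + 2)) ^ K := by
      apply Nat.pow_le_pow_left
      calc 3 ^ h ≤ 9 * 6 ^ ℓ := hh2
        _ ≤ 36 * 6 ^ ℓ := Nat.mul_le_mul_right _ (by norm_num)
        _ = 6 ^ (ℓ + 2) := by rw [pow_add]; ring
    calc 5 * (6 * 6 ^ ℓ * (3 ^ h) ^ K) ≤ 5 * (6 * 6 ^ ℓ * (6 ^ (ℓ + 2)) ^ K) := by gcongr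
      _ = 30 * 6 ^ ℓ * (6 ^ (ℓ + 2)) ^ K := by ring
      _ ≤ 36 * 6 ^ ℓ * (6 ^ (ℓ + 2)) ^ K := by
          apply Nat.mul_le_mul_right
          apply Nat.mul_le_mul_right
          norm_num
      _ = (6 ^ (ℓ + 2)) ^ (K + 1) := by
          rw [pow_succ (6 ^ (ℓ + 2)) K, pow_add 6 ℓ 2]
          ring
      _ = 6 ^ ((ℓ + 2) * (K + 1)) := by rw [← pow_mul]
      _ ≤ 6 ^ L := Nat.pow_le_pow_right (by norm_num) h1
      _ ≤ 6 ^ L + 1 := by omega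
  · have hH2 : 2 ≤ 3 ^ h := by
      have : 0 < 6 ^ ℓ := by positivity
      omega
    have h1 : (3 ^ h - 1) * (3 * (ℓ + 2 * e + 2)) ≤ K := by
      have h2 : (3 ^ h - 1) * (3 * (ℓ + 2 * e + 2)) ≤ 27 * (ℓ + 2 * e + 2) * 6 ^ ℓ := by
        calc (3 ^ h - 1) * (3 * (ℓ + 2 * e + 2)) ≤ (9 * 6 ^ ℓ) * (3 * (ℓ + 2 * e + 2)) :=
              Nat.mul_le_mul_right _ (by omega)
          _ = 27 * (ℓ + 2 * e + 2) * 6 ^ ℓ := by ring
      omega
    refine le_trans ?_ (contraction hH2 h1)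
    apply Nat.mul_le_mul_right
    calc (3 * 6 ^ e) * 6 ^ ℓ * (8 * 6 ^ e)
        = 24 * (6 ^ ℓ * (6 ^ e * 6 ^ e)) := by ring
      _ ≤ 36 * (6 ^ ℓ * (6 ^ e * 6 ^ e)) := Nat.mul_le_mul_right _ (by norm_num)
      _ = 6 ^ (ℓ + 2 * e + 2) := by ring
      _ ≤ 8 ^ (ℓ + 2 * e + 2) := Nat.pow_le_pow_left (by norm_num) _
      _ = 2 ^ (3 * (ℓ + 2 * e + 2)) := by rw [pow_mul]; norm_num

end Pool.Agent.Lib.MP_cc0c1a_nt.Modif
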